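import Pool.Agent.W972.AW.AWval

namespace Pool.Agent.W972.AW

open Finset Filter Topology MeasureTheory
open scoped ENNReal NNReal

variable {n : ℕ}

/-- the value of the Anderson-Weber optimisation when two tours miss each other with probability `κ` -/
noncomputable def cc (κ : ℝ) : ℝ := (κ + √((1 - κ) * (3 - κ))) / 2

/-- The Anderson-Weber constant `0.828…`. -/
noncomputable def cAW : ℝ := cc (Real.exp (-1))

noncomputable def num (θ κ : ℝ) : ℝ := θ ^ 2 + θ * (1 - θ) + (1 - θ) ^ 2 * (1 - κ)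
noncomputable def den (θ κ : ℝ) : ℝ := 1 - θ ^ 2 - (1 - θ) ^ 2 * κ

theorem cc_eq {κ : ℝ} (h1 : κ ≤ 1) : (1 + 2 * cc κ) ^ 2 = 4 * (1 - κ + cc κ * (1 + κ)) := by
  have hs : √((1 - κ) * (3 - κ)) ^ 2 = (1 - κ) * (3 - κ) := Real.sq_sqrt (by nlinarith)
  unfold cc
  nlinarith [hs]

theorem num_sub (θ : ℝ) {κ : ℝ} (h1 : κ ≤ 1) :
    num θ κ - cc κ * den θ κ = (1 - (1 - θ) * (1 + 2 * cc κ) / 2) ^ 2 := by
  have h := cc_eq h1
  unfold num den
  nlinarith [h]

theorem half_le_cc {κ : ℝ} (h1 : κ ≤ 1) : 1 / 2 ≤ cc κ := by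
  have hs : 1 - κ ≤ √((1 - κ) * (3 - κ)) := by
    apply Real.le_sqrt_of_sq_le
    nlinarith
  unfold cc
  linarith

theorem geom (hn : 1 ≤ n) : ∑ T ∈ range n, (1 - 1 / (n : ℝ)) ^ T = n * (1 - (1 - 1 / (n : ℝ)) ^ n) := by
  have hn' : (0 : ℝ) < n := by exact_mod_cast hn
  have h := mul_neg_geom_sum (1 - 1 / (n : ℝ)) n
  have h2 : 1 - (1 - 1 / (n : ℝ)) = 1 / n := by ring
  rw [h2] at h
  rw [← h]
  field_simp

theorem sum_lin (hn : 1 ≤ n) : ∑ T ∈ range n, (1 - (T : ℝ) / n) = (n + 1) / 2 := by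
  have hn' : (0 : ℝ) < n := by exact_mod_cast hn
  have h : ∀ m : ℕ, ∑ T ∈ range m, (1 - (T : ℝ) / n) = m - (m * (m - 1) / 2) / n := by
    intro m
    induction m with
    | zero => simp
    | succ m ih =>
      rw [sum_range_succ, ih]
      push_cast
      field_simp
      ring
  rw [h]
  field_simp
  ring

theorem awS_sum_ge [NeZero n] {θ : ℝ} (h0 : 0 ≤ θ) (h1 : θ ≤ 1) :
    n * num θ ((1 - 1 / (n : ℝ)) ^ n) ≤ ∑ T ∈ range n, awS n θ T := by
  have hn1 : 1 ≤ n := NeZero.one_le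
  have hn' : (0 : ℝ) < n := by exact_mod_cast hn1
  unfold awS
  rw [sum_add_distrib, sum_add_distrib, sum_const, card_range, nsmul_eq_mul, ← mul_sum, ← mul_sum,
    ← mul_sum, sum_lin hn1]
  have h2 : n * (1 - (1 - 1 / (n : ℝ)) ^ n) ≤ ∑ T ∈ range n, q (pairs (Fin.ofNat n) (Fin.ofNat n) T) := by
    rw [← geom hn1]
    exact sum_le_sum fun T hT => le_q_diag (by rw [mem_range] at hT; omega)
  have h3 : 0 ≤ (1 - θ) ^ 2 := by positivity
  have h4 := mul_le_mul_of_nonneg_left h2 h3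
  have h5 : 0 ≤ θ * (1 - θ) := by nlinarith
  unfold num
  nlinarith

theorem awS_last_ge [NeZero n] {θ : ℝ} :
    1 - awS n θ n ≤ den θ ((1 - 1 / (n : ℝ)) ^ n) := by
  have hn1 : 1 ≤ n := NeZero.one_le
  have hn' : (0 : ℝ) < n := by exact_mod_cast hn1
  have h2 := le_q_diag (n := n) (T := n) le_rfl
  have h3 : 0 ≤ (1 - θ) ^ 2 := by positivity
  have h4 := mul_le_mul_of_nonneg_left h2 h3
  unfold awS den
  have h5 : (1 - (n : ℝ) / n) = 0 := by rw [div_self hn'.ne']; ring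
  rw [h5]
  nlinarith

theorem awS_sum_le [NeZero n] (hn : 2 ≤ n) {θ : ℝ} (h0 : 0 ≤ θ) (h1 : θ ≤ 1) :
    ∑ T ∈ range n, awS n θ T ≤ n * num θ ((1 - 1 / (n : ℝ)) ^ n) + 3 := by
  have hn1 : 1 ≤ n := by omega
  have hn' : (2 : ℝ) ≤ n := by exact_mod_cast hn
  unfold awS
  rw [sum_add_distrib, sum_add_distrib, sum_const, card_range, nsmul_eq_mul, ← mul_sum, ← mul_sum,
    ← mul_sum, sum_lin hn1]
  have h2 : ∑ T ∈ range n, q (pairs (Fin.ofNat n) (Fin.ofNat n) T) ≤
      n * (1 - (1 - 1 / (n : ℝ)) ^ n) + 2 := by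
    have h3 : ∑ T ∈ range n, q (pairs (Fin.ofNat n) (Fin.ofNat n) T) ≤
        ∑ T ∈ range n, ((1 - 1 / (n : ℝ)) ^ T + 1 / ((n : ℝ) - 1)) :=
      sum_le_sum fun T hT => q_diag_le hn (by rw [mem_range] at hT; omega)
    refine h3.trans ?_
    rw [sum_add_distrib, geom hn1, sum_const, card_range, nsmul_eq_mul]
    have : (n : ℝ) * (1 / (n - 1)) ≤ 2 := by
      rw [mul_one_div, div_le_iff₀ (by linarith)]; linarith
    linarith
  have h3 : 0 ≤ (1 - θ) ^ 2 := by positivity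
  have h3' : (1 - θ) ^ 2 ≤ 1 := by nlinarith
  have h4 := mul_le_mul_of_nonneg_left h2 h3
  have h5 : 0 ≤ θ * (1 - θ) := by nlinarith
  have h6 : θ * (1 - θ) ≤ 1 := by nlinarith
  unfold num
  nlinarith

theorem awS_last_le [NeZero n] (hn : 2 ≤ n) {θ : ℝ} (h0 : 0 ≤ θ) (h1 : θ ≤ 1) :
    den θ ((1 - 1 / (n : ℝ)) ^ n) - 1 / (n - 1) ≤ 1 - awS n θ n := by
  have hn' : (2 : ℝ) ≤ n := by exact_mod_cast hn
  have h2 := q_diag_le (n := n) (T := n) hn le_rfl
  have h3 : 0 ≤ (1 - θ) ^ 2 := by positivity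
  have h3' : (1 - θ) ^ 2 ≤ 1 := by nlinarith
  have h4 := mul_le_mul_of_nonneg_left h2 h3
  unfold awS den
  have h5 : (1 - (n : ℝ) / n) = 0 := by rw [div_self (by linarith)]; ring
  rw [h5]
  have h6 : 0 ≤ 1 / ((n : ℝ) - 1) := by
    apply div_nonneg (by norm_num); linarith
  have h7 : (1 - θ) ^ 2 * (1 / ((n : ℝ) - 1)) ≤ 1 / ((n : ℝ) - 1) :=
    mul_le_of_le_one_left h6 h3'
  nlinarith

theorem awS_nonneg [NeZero n] {θ : ℝ} (h0 : 0 ≤ θ) (h1 : θ ≤ 1) {T : ℕ} (hT : T ≤ n) :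
    0 ≤ awS n θ T := by
  have hn : (0 : ℝ) < n := by exact_mod_cast NeZero.pos n
  have hT' : (T : ℝ) / n ≤ 1 := by rw [div_le_one hn]; exact_mod_cast hT
  have := q_nonneg (pairs (Fin.ofNat n) (Fin.ofNat n) T)
  unfold awS
  have h5 : 0 ≤ θ * (1 - θ) := by nlinarith
  have h6 : 0 ≤ 1 - (T : ℝ) / n := by linarith
  positivity

theorem sum_ofReal [NeZero n] {θ : ℝ} (h0 : 0 ≤ θ) (h1 : θ ≤ 1) :
    ∑ T ∈ range n, ENNReal.ofReal (awS n θ T) = ENNReal.ofReal (∑ T ∈ range n, awS n θ T) := by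
  rw [ENNReal.ofReal_sum_of_nonneg]
  intro T hT
  rw [mem_range] at hT
  exact awS_nonneg h0 h1 hT.le

theorem mean_aw [NeZero n] (θ : ℝ≥0) (h : θ ≤ 1) :
    meanTime (awStrategy n θ h) = (∑ π : Equiv.Perm (Fin n),
      (∑ T ∈ range n, surv (awChoice n θ h) (awPlay n) π T) *
        (1 - surv (awChoice n θ h) (awPlay n) π n)⁻¹) / (n.factorial : ℝ≥0∞) := by
  unfold meanTime awStrategy
  congr 1
  refine sum_congr rfl fun π _ => ?_
  exact mean_block _ _ _ (NeZero.pos n)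

theorem le_mean_aw [NeZero n] (θ : ℝ≥0) (h : θ ≤ 1) :
    ENNReal.ofReal ((n - 1) * cc ((1 - 1 / (n : ℝ)) ^ n)) ≤ meanTime (awStrategy n θ h) := by
  have hn1 : 1 ≤ n := NeZero.one_le
  have hn' : (1 : ℝ) ≤ n := by exact_mod_cast hn1
  have hθ1 : (θ : ℝ) ≤ 1 := by exact_mod_cast h
  have hθ0 : (0 : ℝ) ≤ θ := θ.coe_nonneg
  set κ := (1 - 1 / (n : ℝ)) ^ n with hκ
  have hκ1 : κ ≤ 1 := by
    apply pow_le_one₀
    · rw [sub_nonneg, div_le_one (by linarith)]; linarith
    · have : 0 ≤ 1 / (n : ℝ) := by positivity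
      linarith
  have hc := half_le_cc hκ1
  rw [mean_aw]
  -- per permutation
  have hper : ∀ π : Equiv.Perm (Fin n), π 0 ≠ 0 → ENNReal.ofReal (n * cc κ) ≤
      (∑ T ∈ range n, surv (awChoice n θ h) (awPlay n) π T) *
        (1 - surv (awChoice n θ h) (awPlay n) π n)⁻¹ := by
    intro π hπ
    have h1 : ∑ T ∈ range n, surv (awChoice n θ h) (awPlay n) π T =
        ENNReal.ofReal (∑ T ∈ range n, awS n θ T) := by
      rw [← sum_ofReal hθ0 hθ1]
      refine sum_congr rfl fun T hT => ?_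
      rw [mem_range] at hT
      exact le_surv_aw θ h π hπ hT.le
    have h2 : 1 - surv (awChoice n θ h) (awPlay n) π n = ENNReal.ofReal (1 - awS n θ n) := by
      rw [le_surv_aw θ h π hπ le_rfl, ENNReal.ofReal_sub _ (awS_nonneg hθ0 hθ1 le_rfl)]
      simp
    rw [h1, h2, ← div_eq_mul_inv, ENNReal.le_div_iff_mul_le]
    · rw [← ENNReal.ofReal_mul (by positivity)]
      apply ENNReal.ofReal_le_ofReal
      have h3 := awS_sum_ge (n := n) hθ0 hθ1
      have h4 := awS_last_ge (n := n) (θ := (θ : ℝ))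
      have h5 := num_sub (θ : ℝ) hκ1
      have h6 : cc κ * den θ κ ≤ num θ κ := by
        have : 0 ≤ (1 - (1 - (θ : ℝ)) * (1 + 2 * cc κ) / 2) ^ 2 := by positivity
        linarith
      rw [← hκ] at h3 h4
      have h7 : n * cc κ * (1 - awS n θ n) ≤ n * cc κ * den θ κ := by
        apply mul_le_mul_of_nonneg_left h4
        positivity
      have h8 : (n : ℝ) * cc κ * den θ κ ≤ n * num θ κ := by
        rw [mul_assoc]
        apply mul_le_mul_of_nonneg_left h6
        positivity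
      linarith
    · right
      have h3 : awS n (θ : ℝ) 0 ≤ ∑ T ∈ range n, awS n θ T := by
        apply single_le_sum (f := fun T => awS n (θ : ℝ) T) (s := range n)
        · intro T hT
          rw [mem_range] at hT
          exact awS_nonneg hθ0 hθ1 hT.le
        · rw [mem_range]; omega
      have h4 : awS n (θ : ℝ) 0 = 1 := by
        unfold awS pairs
        simp only [range_zero, image_empty, q_empty, Nat.cast_zero, zero_div]
        ring
      rw [h4] at h3
      intro h5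
      rw [ENNReal.ofReal_eq_zero] at h5
      linarith
    · left; exact ENNReal.ofReal_ne_top
  have hcount : ((univ.filter fun π : Equiv.Perm (Fin n) => π 0 ≠ 0).card : ℝ) =
      (1 - 1 / n) * n.factorial := by
    have h1 := card_one_real hn1 (0 : Fin n) 0
    have h2 : (univ.filter fun π : Equiv.Perm (Fin n) => π 0 = 0).card +
        (univ.filter fun π : Equiv.Perm (Fin n) => ¬ π 0 = 0).card = n.factorial := by
      rw [card_filter_add_card_filter_not, card_univ, Fintype.card_perm, Fintype.card_fin]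
    have h3 : ((univ.filter fun π : Equiv.Perm (Fin n) => π 0 = 0).card : ℝ) +
        ((univ.filter fun π : Equiv.Perm (Fin n) => ¬ π 0 = 0).card : ℝ) = n.factorial := by
      exact_mod_cast h2
    rw [h1] at h3
    have h4 : (1 - 1 / (n : ℝ)) * n.factorial = n.factorial - n.factorial / n := by ring
    rw [h4]
    simp only [ne_eq]
    linarith
  rw [ENNReal.le_div_iff_mul_le (Or.inl factorial_ne_zero') (Or.inl factorial_ne_top')]
  calc ENNReal.ofReal ((n - 1) * cc κ) * (n.factorial : ℝ≥0∞)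
      = ((univ.filter fun π : Equiv.Perm (Fin n) => π 0 ≠ 0).card : ℝ≥0∞) *
        ENNReal.ofReal (n * cc κ) := by
        rw [← ENNReal.ofReal_natCast, ← ENNReal.ofReal_natCast
          (univ.filter fun π : Equiv.Perm (Fin n) => π 0 ≠ 0).card, hcount,
          ← ENNReal.ofReal_mul (by apply mul_nonneg <;> linarith), ← ENNReal.ofReal_mul (by
            apply mul_nonneg
            · rw [sub_nonneg, div_le_one (by linarith)]; linarith
            · positivity)]
        congr 1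
        field_simp
    _ = ∑ π ∈ univ.filter fun π : Equiv.Perm (Fin n) => π 0 ≠ 0, ENNReal.ofReal (n * cc κ) := by
        rw [sum_const, nsmul_eq_mul]
    _ ≤ ∑ π ∈ univ.filter fun π : Equiv.Perm (Fin n) => π 0 ≠ 0,
        (∑ T ∈ range n, surv (awChoice n θ h) (awPlay n) π T) *
        (1 - surv (awChoice n θ h) (awPlay n) π n)⁻¹ := by
        refine sum_le_sum fun π hπ => hper π ?_
        rw [mem_filter] at hπ
        exact hπ.2
    _ ≤ _ := sum_le_sum_of_subset (filter_subset _ _)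

theorem mean_aw_le [NeZero n] (hn : 2 ≤ n) (θ : ℝ≥0) (h : θ ≤ 1)
    (hpos : 0 < den θ ((1 - 1 / (n : ℝ)) ^ n) - 1 / (n - 1)) :
    meanTime (awStrategy n θ h) ≤ ENNReal.ofReal ((n * num θ ((1 - 1 / (n : ℝ)) ^ n) + 3) /
      (den θ ((1 - 1 / (n : ℝ)) ^ n) - 1 / (n - 1))) := by
  have hθ1 : (θ : ℝ) ≤ 1 := by exact_mod_cast h
  have hθ0 : (0 : ℝ) ≤ θ := θ.coe_nonneg
  have h1 := awS_sum_le hn hθ0 hθ1
  have h2 := awS_last_le hn hθ0 hθ1
  have h3 : 0 ≤ ∑ T ∈ range n, awS n θ T := sum_nonneg fun T hT => by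
    rw [mem_range] at hT; exact awS_nonneg hθ0 hθ1 hT.le
  rw [mean_aw]
  apply ENNReal.div_le_of_le_mul
  have hper : ∀ π ∈ (univ : Finset (Equiv.Perm (Fin n))),
      (∑ T ∈ range n, surv (awChoice n θ h) (awPlay n) π T) *
        (1 - surv (awChoice n θ h) (awPlay n) π n)⁻¹ ≤
      ENNReal.ofReal ((n * num θ ((1 - 1 / (n : ℝ)) ^ n) + 3) /
      (den θ ((1 - 1 / (n : ℝ)) ^ n) - 1 / (n - 1))) := by
    intro π _
    rw [ENNReal.ofReal_div_of_pos hpos, div_eq_mul_inv]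
    apply mul_le_mul'
    · calc ∑ T ∈ range n, surv (awChoice n θ h) (awPlay n) π T
          ≤ ∑ T ∈ range n, ENNReal.ofReal (awS n θ T) := by
            refine sum_le_sum fun T hT => ?_
            rw [mem_range] at hT
            exact surv_aw_le θ h π hT.le
        _ = ENNReal.ofReal (∑ T ∈ range n, awS n θ T) := sum_ofReal hθ0 hθ1
        _ ≤ _ := ENNReal.ofReal_le_ofReal h1
    · rw [ENNReal.inv_le_inv]
      calc ENNReal.ofReal (den θ ((1 - 1 / (n : ℝ)) ^ n) - 1 / (n - 1))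
          ≤ ENNReal.ofReal (1 - awS n θ n) := ENNReal.ofReal_le_ofReal h2
        _ = 1 - ENNReal.ofReal (awS n θ n) := by
            rw [ENNReal.ofReal_sub _ (awS_nonneg hθ0 hθ1 le_rfl)]; simp
        _ ≤ _ := tsub_le_tsub_left (surv_aw_le θ h π le_rfl) _
  refine (sum_le_sum hper).trans ?_
  rw [sum_const, card_univ, Fintype.card_perm, Fintype.card_fin, nsmul_eq_mul, mul_comm]

theorem tendsto_kappa : Tendsto (fun n : ℕ => (1 - 1 / (n : ℝ)) ^ n) atTop (𝓝 (Real.exp (-1))) := by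
  have h := Real.tendsto_one_add_div_pow_exp (-1)
  refine h.congr fun n => ?_
  congr 1
  ring

theorem continuous_cc : Continuous cc := by
  unfold cc
  fun_prop

theorem tendsto_lower :
    Tendsto (fun n : ℕ => (((n : ℝ) - 1) * cc ((1 - 1 / (n : ℝ)) ^ n)) / n) atTop (𝓝 cAW) := by
  have h1 : Tendsto (fun n : ℕ => cc ((1 - 1 / (n : ℝ)) ^ n)) atTop (𝓝 cAW) :=
    (continuous_cc.tendsto _).comp tendsto_kappa
  have h2 : Tendsto (fun n : ℕ => 1 - 1 / (n : ℝ)) atTop (𝓝 1) := by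
    have := tendsto_const_nhds (x := (1 : ℝ)) (f := atTop (α := ℕ)) |>.sub
      (tendsto_one_div_atTop_nhds_zero_nat (𝕜 := ℝ))
    simpa using this
  have h3 := h2.mul h1
  rw [one_mul] at h3
  refine h3.congr' ?_
  filter_upwards [eventually_gt_atTop 0] with n hn
  have : (0 : ℝ) < n := by exact_mod_cast hn
  field_simp

theorem exp_neg_one_lt : Real.exp (-1) < 1 := by
  rw [Real.exp_lt_one_iff]; norm_num

theorem tendsto_upper (θ : ℝ) (hden : 0 < den θ (Real.exp (-1))) :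
    Tendsto (fun n : ℕ => ((n * num θ ((1 - 1 / (n : ℝ)) ^ n) + 3) /
      (den θ ((1 - 1 / (n : ℝ)) ^ n) - 1 / (n - 1))) / n) atTop
      (𝓝 (num θ (Real.exp (-1)) / den θ (Real.exp (-1)))) := by
  have hnum : Continuous (num θ) := by unfold num; fun_prop
  have hden' : Continuous (den θ) := by unfold den; fun_prop
  have h1 : Tendsto (fun n : ℕ => num θ ((1 - 1 / (n : ℝ)) ^ n) + 3 * (1 / (n : ℝ))) atTop
      (𝓝 (num θ (Real.exp (-1)) + 3 * 0)) :=
    ((hnum.tendsto _).comp tendsto_kappa).add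
      (tendsto_const_nhds.mul (tendsto_one_div_atTop_nhds_zero_nat (𝕜 := ℝ)))
  have h0 : Tendsto (fun n : ℕ => 1 / ((n : ℝ) - 1)) atTop (𝓝 0) := by
    have h2 : Tendsto (fun n : ℕ => (n : ℝ) - 1) atTop atTop :=
      tendsto_atTop_add_const_right _ _ tendsto_natCast_atTop_atTop
    have h3 := tendsto_inv_atTop_zero.comp h2
    refine h3.congr fun n => ?_
    simp [Function.comp]
  have h2 : Tendsto (fun n : ℕ => den θ ((1 - 1 / (n : ℝ)) ^ n) - 1 / ((n : ℝ) - 1)) atTop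
      (𝓝 (den θ (Real.exp (-1)) - 0)) := ((hden'.tendsto _).comp tendsto_kappa).sub h0
  have h3 := h1.div h2 (by rw [sub_zero]; exact hden.ne')
  rw [mul_zero, add_zero, sub_zero] at h3
  refine h3.congr' ?_
  filter_upwards [eventually_gt_atTop 0] with n hn
  have : (0 : ℝ) < n := by exact_mod_cast hn
  simp only [Pi.div_apply]
  rw [div_div, mul_comm _ (n : ℝ), ← div_div]
  congr 1
  field_simp

/-- The limit of the optimal Anderson-Weber value divided by `n` is `cAW`. -/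
theorem awBest_limit (δ : ℝ) (hδ : 0 < δ) : ∃ n₀ : ℕ, ∀ (n : ℕ) [NeZero n], n₀ ≤ n →
    ENNReal.ofReal ((cAW - δ) * n) ≤ awBest n ∧ awBest n ≤ ENNReal.ofReal ((cAW + δ) * n) := by
  have he := exp_neg_one_lt
  have hc := half_le_cc he.le
  -- the optimal parameter
  set θ₀ : ℝ := 1 - 2 / (1 + 2 * cAW) with hθ₀
  have hc' : 1 / 2 ≤ cAW := hc
  have hθa : 0 ≤ θ₀ := by
    rw [hθ₀, sub_nonneg, div_le_one (by linarith)]; linarith
  have hθb : θ₀ ≤ 1 := by
    have : 0 ≤ 2 / (1 + 2 * cAW) := by apply div_nonneg <;> linarith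
    linarith
  have hopt : num θ₀ (Real.exp (-1)) = cAW * den θ₀ (Real.exp (-1)) := by
    have h := num_sub θ₀ he.le
    have h2 : (1 - (1 - θ₀) * (1 + 2 * cc (Real.exp (-1))) / 2) = 0 := by
      rw [hθ₀]
      have h3 : (1 + 2 * cAW) ≠ 0 := by linarith
      change (1 - (1 - (1 - 2 / (1 + 2 * cAW))) * (1 + 2 * cAW) / 2) = 0
      field_simp
      ring
    rw [h2] at h
    have h3 : cc (Real.exp (-1)) = cAW := rfl
    rw [h3] at h
    linarith
  have hnumpos : 0 < num θ₀ (Real.exp (-1)) := by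
    unfold num
    have h1 : 0 < (1 - θ₀) ^ 2 * (1 - Real.exp (-1)) := by
      apply mul_pos
      · apply pow_pos
        rw [hθ₀]
        have : 0 < 2 / (1 + 2 * cAW) := by apply div_pos <;> linarith
        linarith
      · linarith
    have h2 : 0 ≤ θ₀ * (1 - θ₀) := by nlinarith
    nlinarith
  have hden : 0 < den θ₀ (Real.exp (-1)) := by
    by_contra h
    push_neg at h
    have : cAW * den θ₀ (Real.exp (-1)) ≤ 0 := mul_nonpos_of_nonneg_of_nonpos (by linarith) h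
    linarith
  have hlim : num θ₀ (Real.exp (-1)) / den θ₀ (Real.exp (-1)) = cAW := by
    rw [hopt]; field_simp
  have hU := tendsto_upper θ₀ hden
  rw [hlim] at hU
  have hdenev : ∀ᶠ n : ℕ in atTop, 0 < den θ₀ ((1 - 1 / (n : ℝ)) ^ n) - 1 / ((n : ℝ) - 1) := by
    have hden' : Continuous (den θ₀) := by unfold den; fun_prop
    have h0 : Tendsto (fun n : ℕ => 1 / ((n : ℝ) - 1)) atTop (𝓝 0) := by
      have h2 : Tendsto (fun n : ℕ => (n : ℝ) - 1) atTop atTop :=
        tendsto_atTop_add_const_right _ _ tendsto_natCast_atTop_atTop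
      have h3 := tendsto_inv_atTop_zero.comp h2
      refine h3.congr fun n => ?_
      simp [Function.comp]
    have h2 : Tendsto (fun n : ℕ => den θ₀ ((1 - 1 / (n : ℝ)) ^ n) - 1 / ((n : ℝ) - 1)) atTop
      (𝓝 (den θ₀ (Real.exp (-1)) - 0)) := ((hden'.tendsto _).comp tendsto_kappa).sub h0
    rw [sub_zero] at h2
    exact h2.eventually (eventually_gt_nhds hden)
  have h1 := tendsto_lower.eventually (eventually_gt_nhds (show cAW - δ < cAW by linarith))
  have h2 := hU.eventually (eventually_lt_nhds (show cAW < cAW + δ by linarith))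
  obtain ⟨n₀, hn₀⟩ := eventually_atTop.1 ((h1.and h2).and (hdenev.and (eventually_ge_atTop 2)))
  refine ⟨n₀, fun n _ hn => ?_⟩
  obtain ⟨⟨g1, g2⟩, g3, g4⟩ := hn₀ n hn
  have hnpos : (0 : ℝ) < n := by exact_mod_cast NeZero.pos n
  constructor
  · refine le_iInf₂ fun θ h => ?_
    refine le_trans (ENNReal.ofReal_le_ofReal ?_) (le_mean_aw θ h)
    rw [lt_div_iff₀ hnpos] at g1
    exact g1.le
  · have hθc : ((Real.toNNReal θ₀ : ℝ≥0) : ℝ) = θ₀ := Real.coe_toNNReal _ hθa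
    have hθ1 : Real.toNNReal θ₀ ≤ 1 := by
      rw [Real.toNNReal_le_one]; exact hθb
    refine (iInf₂_le (Real.toNNReal θ₀) hθ1).trans ?_
    refine (mean_aw_le g4 _ _ (by rw [hθc]; exact g3)).trans ?_
    rw [hθc]
    apply ENNReal.ofReal_le_ofReal
    rw [div_lt_iff₀ hnpos] at g2
    exact g2.le

end Pool.Agent.W972.AW
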