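import Pool.Agent.W972.AW.Relabel

namespace Pool.Agent.W972.AW

open Finset
open scoped ENNReal NNReal

variable {n : ℕ}

theorem card_miss [NeZero n] (c : Fin n) {T : ℕ} (hT : T ≤ n) :
    (univ.filter fun ρ : Equiv.Perm (Fin n) => ∀ t < T, ρ (Fin.ofNat n t) ≠ c).card * n =
      (n - T) * n.factorial := by
  have hiff : ∀ ρ : Equiv.Perm (Fin n), (∀ t < T, ρ (Fin.ofNat n t) ≠ c) ↔ T ≤ (ρ⁻¹ c : Fin n).val := by
    intro ρ
    constructor
    · intro h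
      by_contra hlt
      push_neg at hlt
      apply h _ hlt
      have : Fin.ofNat n (ρ⁻¹ c : Fin n).val = ρ⁻¹ c := by
        ext; simp [Fin.ofNat, Nat.mod_eq_of_lt]
      rw [this]; simp
    · intro h t ht h2
      have h3 : ρ⁻¹ c = Fin.ofNat n t := by rw [← h2]; simp
      rw [h3] at h
      simp only [Fin.ofNat] at h
      rw [Nat.mod_eq_of_lt (by omega)] at h
      omega
  have hmaps : ∀ ρ ∈ (univ.filter fun ρ : Equiv.Perm (Fin n) => ∀ t < T, ρ (Fin.ofNat n t) ≠ c),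
      ρ⁻¹ c ∈ (univ.filter fun i : Fin n => T ≤ i.val) := by
    intro ρ hρ
    rw [mem_filter] at hρ ⊢
    exact ⟨mem_univ _, (hiff ρ).1 hρ.2⟩
  rw [card_eq_sum_card_fiberwise hmaps, sum_mul]
  have hterm : ∀ i ∈ (univ.filter fun i : Fin n => T ≤ i.val),
      ((univ.filter fun ρ : Equiv.Perm (Fin n) => ∀ t < T, ρ (Fin.ofNat n t) ≠ c).filter
        fun ρ => ρ⁻¹ c = i).card * n = n.factorial := by
    intro i hi
    rw [mem_filter] at hi
    rw [← card_one i c]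
    congr 2
    ext ρ
    simp only [mem_filter, mem_univ, true_and]
    rw [hiff]
    constructor
    · rintro ⟨_, h⟩; rw [← h]; simp
    · intro h
      have : ρ⁻¹ c = i := by rw [← h]; simp
      exact ⟨by rw [this]; exact hi.2, this⟩
  rw [sum_congr rfl hterm, sum_const, smul_eq_mul]
  congr 1
  have : (univ.filter fun i : Fin n => T ≤ i.val).card = n - T := by
    have h1 : (univ.filter fun i : Fin n => T ≤ i.val) = univ \ (univ.filter fun i : Fin n => i.val < T) := by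
      ext i; simp
    rw [h1, card_sdiff_of_subset (subset_univ _), card_univ, Fintype.card_fin]
    congr 1
    rw [Fin.card_filter_val_lt]
    omega
  exact this

theorem miss_prob [NeZero n] (c : Fin n) {T : ℕ} (hT : T ≤ n) :
    (∑ ρ : Equiv.Perm (Fin n), (n.factorial : ℝ≥0∞)⁻¹ *
      (if ∀ t < T, ρ (Fin.ofNat n t) ≠ c then (1 : ℝ≥0∞) else 0)) =
      ENNReal.ofReal (1 - T / n) := by
  rw [← mul_sum, sum_boole]
  have hn : (0 : ℝ) < n := by exact_mod_cast NeZero.pos n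
  have h := card_miss c hT
  have h2 : ((univ.filter fun ρ : Equiv.Perm (Fin n) => ∀ t < T, ρ (Fin.ofNat n t) ≠ c).card : ℝ) =
      (1 - T / n) * n.factorial := by
    have h3 : ((univ.filter fun ρ : Equiv.Perm (Fin n) => ∀ t < T, ρ (Fin.ofNat n t) ≠ c).card : ℝ) * n
        = ((n : ℝ) - T) * n.factorial := by
      rw [← Nat.cast_sub hT]; exact_mod_cast h
    field_simp
    linarith
  have h4 : (((univ.filter fun ρ : Equiv.Perm (Fin n) => ∀ t < T, ρ (Fin.ofNat n t) ≠ c).card : ℕ) : ℝ≥0∞)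
      = ENNReal.ofReal (1 - T / n) * (n.factorial : ℝ≥0∞) := by
    rw [← ENNReal.ofReal_natCast, h2, ENNReal.ofReal_mul' (by positivity), ENNReal.ofReal_natCast]
  rw [h4, mul_comm, mul_assoc, ENNReal.mul_inv_cancel factorial_ne_zero' factorial_ne_top', mul_one]

/-- survival probability of two Anderson-Weber players with different homes -/
noncomputable def awS (n : ℕ) [NeZero n] (θ : ℝ) (T : ℕ) : ℝ :=
  θ ^ 2 + 2 * (θ * (1 - θ) * (1 - T / n)) + (1 - θ) ^ 2 * q (pairs (Fin.ofNat n) (Fin.ofNat n) T)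

theorem surv_aw [NeZero n] (θ : ℝ≥0) (h : θ ≤ 1) (π : Equiv.Perm (Fin n)) {T : ℕ} (hT : T ≤ n) :
    surv (awChoice n θ h) (awPlay n) π T =
      (θ : ℝ≥0∞) * (θ * (if ∀ t < T, (0 : Fin n) ≠ π 0 then 1 else 0)) +
      2 * ((θ : ℝ≥0∞) * (1 - θ) * ENNReal.ofReal (1 - T / n)) +
      (1 - θ) * (1 - θ) * ENNReal.ofReal (q (pairs (Fin.ofNat n) (Fin.ofNat n) T)) := by
  have e0 : awChoice n θ h none = (θ : ℝ≥0∞) := by
    unfold awChoice; rw [PMF.ofFintype_apply]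
  have e1 : ∀ ρ, awChoice n θ h (some ρ) = (1 - (θ : ℝ≥0∞)) * (n.factorial : ℝ≥0∞)⁻¹ := by
    intro ρ; unfold awChoice; rw [PMF.ofFintype_apply]; rfl
  unfold surv
  rw [Fintype.sum_option]
  simp only [Fintype.sum_option, e0, e1, awPlay]
  have t2 : (∑ ρ' : Equiv.Perm (Fin n), (θ : ℝ≥0∞) * ((1 - (θ : ℝ≥0∞)) * (n.factorial : ℝ≥0∞)⁻¹ *
      (if ∀ t < T, (0 : Fin n) ≠ π (ρ' (Fin.ofNat n t)) then (1 : ℝ≥0∞) else 0))) =
      (θ : ℝ≥0∞) * (1 - θ) * ENNReal.ofReal (1 - T / n) := by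
    rw [← miss_prob (π⁻¹ 0) hT, mul_sum]
    refine sum_congr rfl fun ρ' _ => ?_
    have : (∀ t < T, (0 : Fin n) ≠ π (ρ' (Fin.ofNat n t))) ↔ (∀ t < T, ρ' (Fin.ofNat n t) ≠ π⁻¹ 0) := by
      constructor
      · intro hh t ht h2
        apply hh t ht
        rw [h2]; simp
      · intro hh t ht h2
        apply hh t ht
        rw [h2]; simp
    simp only [this]
    ring
  have t3 : (∑ ρ : Equiv.Perm (Fin n), (1 - (θ : ℝ≥0∞)) * (n.factorial : ℝ≥0∞)⁻¹ * ((θ : ℝ≥0∞) *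
      (if ∀ t < T, ρ (Fin.ofNat n t) ≠ π 0 then (1 : ℝ≥0∞) else 0))) =
      (θ : ℝ≥0∞) * (1 - θ) * ENNReal.ofReal (1 - T / n) := by
    rw [← miss_prob (π 0) hT, mul_sum]
    refine sum_congr rfl fun ρ _ => ?_
    ring
  have t4 : (∑ ρ : Equiv.Perm (Fin n), ∑ ρ' : Equiv.Perm (Fin n),
      (1 - (θ : ℝ≥0∞)) * (n.factorial : ℝ≥0∞)⁻¹ * ((1 - (θ : ℝ≥0∞)) * (n.factorial : ℝ≥0∞)⁻¹ *
      (if ∀ t < T, ρ (Fin.ofNat n t) ≠ π (ρ' (Fin.ofNat n t)) then (1 : ℝ≥0∞) else 0))) =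
      (1 - θ) * (1 - θ) * ENNReal.ofReal (q (pairs (Fin.ofNat n) (Fin.ofNat n) T)) := by
    rw [← relabel_prob (Fin.ofNat n) (Fin.ofNat n) π T, mul_sum]
    refine sum_congr rfl fun ρ _ => ?_
    rw [mul_sum]
    refine sum_congr rfl fun ρ' _ => ?_
    ring
  rw [sum_add_distrib]
  have final : ((θ : ℝ≥0∞) * (θ * (if ∀ t < T, (0 : Fin n) ≠ π 0 then 1 else 0)) +
      (∑ ρ' : Equiv.Perm (Fin n), (θ : ℝ≥0∞) * ((1 - (θ : ℝ≥0∞)) * (n.factorial : ℝ≥0∞)⁻¹ *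
      (if ∀ t < T, (0 : Fin n) ≠ π (ρ' (Fin.ofNat n t)) then (1 : ℝ≥0∞) else 0)))) +
      ((∑ ρ : Equiv.Perm (Fin n), (1 - (θ : ℝ≥0∞)) * (n.factorial : ℝ≥0∞)⁻¹ * ((θ : ℝ≥0∞) *
      (if ∀ t < T, ρ (Fin.ofNat n t) ≠ π 0 then (1 : ℝ≥0∞) else 0))) +
      (∑ ρ : Equiv.Perm (Fin n), ∑ ρ' : Equiv.Perm (Fin n),
      (1 - (θ : ℝ≥0∞)) * (n.factorial : ℝ≥0∞)⁻¹ * ((1 - (θ : ℝ≥0∞)) * (n.factorial : ℝ≥0∞)⁻¹ *
      (if ∀ t < T, ρ (Fin.ofNat n t) ≠ π (ρ' (Fin.ofNat n t)) then (1 : ℝ≥0∞) else 0)))) =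
      (θ : ℝ≥0∞) * (θ * (if ∀ t < T, (0 : Fin n) ≠ π 0 then 1 else 0)) +
      2 * ((θ : ℝ≥0∞) * (1 - θ) * ENNReal.ofReal (1 - T / n)) +
      (1 - θ) * (1 - θ) * ENNReal.ofReal (q (pairs (Fin.ofNat n) (Fin.ofNat n) T)) := by
    rw [t2, t3, t4]; ring
  convert final

theorem surv_aw_le [NeZero n] (θ : ℝ≥0) (h : θ ≤ 1) (π : Equiv.Perm (Fin n)) {T : ℕ} (hT : T ≤ n) :
    surv (awChoice n θ h) (awPlay n) π T ≤ ENNReal.ofReal (awS n θ T) := by
  have hn : (0 : ℝ) < n := by exact_mod_cast NeZero.pos n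
  have hθ : (θ : ℝ) ≤ 1 := by exact_mod_cast h
  have hθ0 : (0 : ℝ) ≤ θ := θ.coe_nonneg
  have hT' : (T : ℝ) / n ≤ 1 := by rw [div_le_one hn]; exact_mod_cast hT
  have hq := q_nonneg (pairs (Fin.ofNat n) (Fin.ofNat n) T)
  rw [surv_aw θ h π hT]
  have hθe : (θ : ℝ≥0∞) = ENNReal.ofReal (θ : ℝ) := by simp
  have hθe' : 1 - (θ : ℝ≥0∞) = ENNReal.ofReal (1 - (θ : ℝ)) := by
    rw [ENNReal.ofReal_sub _ hθ0]; simp
  rw [hθe', hθe]
  have hx1 : (0 : ℝ) ≤ 1 - θ := by linarith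
  have hx2 : (0 : ℝ) ≤ 1 - T / n := by linarith
  calc _ ≤ ENNReal.ofReal (θ : ℝ) * ENNReal.ofReal (θ : ℝ) + 2 * (ENNReal.ofReal (θ : ℝ) *
        ENNReal.ofReal (1 - (θ : ℝ)) * ENNReal.ofReal (1 - T / n)) + ENNReal.ofReal (1 - (θ : ℝ)) *
        ENNReal.ofReal (1 - (θ : ℝ)) * ENNReal.ofReal (q (pairs (Fin.ofNat n) (Fin.ofNat n) T)) := by
        gcongr
        split_ifs <;> simp
    _ = ENNReal.ofReal (awS n θ T) := by
        have h2 : (2 : ℝ≥0∞) = ENNReal.ofReal 2 := by simp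
        rw [h2, ← ENNReal.ofReal_mul hθ0, ← ENNReal.ofReal_mul hθ0, ← ENNReal.ofReal_mul (by positivity),
          ← ENNReal.ofReal_mul (by norm_num), ← ENNReal.ofReal_mul hx1,
          ← ENNReal.ofReal_mul (by positivity), ← ENNReal.ofReal_add (by positivity) (by positivity),
          ← ENNReal.ofReal_add (by positivity) (by positivity)]
        congr 1
        unfold awS
        ring

theorem le_surv_aw [NeZero n] (θ : ℝ≥0) (h : θ ≤ 1) (π : Equiv.Perm (Fin n)) (hπ : π 0 ≠ 0) {T : ℕ}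
    (hT : T ≤ n) :
    surv (awChoice n θ h) (awPlay n) π T = ENNReal.ofReal (awS n θ T) := by
  have hn : (0 : ℝ) < n := by exact_mod_cast NeZero.pos n
  have hθ : (θ : ℝ) ≤ 1 := by exact_mod_cast h
  have hθ0 : (0 : ℝ) ≤ θ := θ.coe_nonneg
  have hT' : (T : ℝ) / n ≤ 1 := by rw [div_le_one hn]; exact_mod_cast hT
  have hq := q_nonneg (pairs (Fin.ofNat n) (Fin.ofNat n) T)
  rw [surv_aw θ h π hT]
  have hθe : (θ : ℝ≥0∞) = ENNReal.ofReal (θ : ℝ) := by simp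
  have hθe' : 1 - (θ : ℝ≥0∞) = ENNReal.ofReal (1 - (θ : ℝ)) := by
    rw [ENNReal.ofReal_sub _ hθ0]; simp
  rw [hθe', hθe, if_pos (fun t _ => hπ.symm), mul_one]
  have hx1 : (0 : ℝ) ≤ 1 - θ := by linarith
  have hx2 : (0 : ℝ) ≤ 1 - T / n := by linarith
  have h2 : (2 : ℝ≥0∞) = ENNReal.ofReal 2 := by simp
  rw [h2, ← ENNReal.ofReal_mul hθ0, ← ENNReal.ofReal_mul hθ0, ← ENNReal.ofReal_mul (by positivity),
    ← ENNReal.ofReal_mul (by norm_num), ← ENNReal.ofReal_mul hx1,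
    ← ENNReal.ofReal_mul (by positivity), ← ENNReal.ofReal_add (by positivity) (by positivity),
    ← ENNReal.ofReal_add (by positivity) (by positivity)]
  congr 1
  unfold awS
  ring

/-- bounds for the probability of no coincidence in `T` steps of two tours -/
theorem le_q_diag [NeZero n] {T : ℕ} (hT : T ≤ n) :
    (1 - 1 / (n : ℝ)) ^ T ≤ q (pairs (Fin.ofNat n) (Fin.ofNat n) T) := by
  have hn1 : 1 ≤ n := NeZero.one_le
  have hn : (1 : ℝ) ≤ n := by exact_mod_cast hn1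
  have h0 : 0 ≤ 1 - 1 / (n : ℝ) := by
    rw [sub_nonneg, div_le_one (by linarith)]; linarith
  induction T with
  | zero => simp [pairs, q_empty]
  | succ T ih =>
    have h1 : pairs (Fin.ofNat n) (Fin.ofNat n) (T + 1) =
        insert (Fin.ofNat n T, Fin.ofNat n T) (pairs (Fin.ofNat n) (Fin.ofNat n) T) := by
      unfold pairs
      rw [range_add_one, image_insert]
    rw [h1, pow_succ, mul_comm]
    refine le_trans ?_ (le_q_insert hn1 ?_)
    · exact mul_le_mul_of_nonneg_left (ih (by omega)) h0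
    · intro p hp
      unfold pairs at hp
      rw [mem_image] at hp
      obtain ⟨t, ht, rfl⟩ := hp
      rw [mem_range] at ht
      have : Fin.ofNat n t ≠ Fin.ofNat n T := by
        intro h2
        have h3 := congrArg Fin.val h2
        simp only [Fin.ofNat] at h3
        rw [Nat.mod_eq_of_lt (by omega), Nat.mod_eq_of_lt (by omega)] at h3
        omega
      exact ⟨this, this⟩

theorem q_diag_le [NeZero n] (hn : 2 ≤ n) {T : ℕ} (hT : T ≤ n) :
    q (pairs (Fin.ofNat n) (Fin.ofNat n) T) ≤ (1 - 1 / (n : ℝ)) ^ T + 1 / (n - 1) := by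
  have hn1 : (1 : ℝ) < n := by exact_mod_cast hn
  have hcard : (pairs (Fin.ofNat n) (Fin.ofNat n) T).card = T := by
    unfold pairs
    rw [card_image_of_injOn, card_range]
    intro a ha b hb hab
    simp only [coe_range, Set.mem_Iio] at ha hb
    have h3 := congrArg (fun p : Fin n × Fin n => p.1.val) hab
    simp only [Fin.ofNat] at h3
    rwa [Nat.mod_eq_of_lt (by omega), Nat.mod_eq_of_lt (by omega)] at h3
  have h := q_union_le hn ∅ (pairs (Fin.ofNat n) (Fin.ofNat n) T) (disjoint_empty_left _) (M := n)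
    (by rw [empty_union, hcard]; exact hT)
  rw [empty_union, hcard, q_empty, mul_one] at h
  refine h.trans ?_
  have hT' : (T : ℝ) ≤ n := by exact_mod_cast hT
  have h2 : (T : ℝ) * ((n : ℝ) / ((n : ℝ) * (n * (n - 1)))) ≤ 1 / (n - 1) := by
    have hpos : 0 < (n : ℝ) - 1 := by linarith
    rw [mul_div_assoc', div_le_div_iff₀ (by positivity) hpos]
    have : (T : ℝ) * n * (n - 1) ≤ n * n * (n - 1) := by gcongr
    nlinarith
  linarith

end Pool.Agent.W972.AW
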