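import Pool.Agent.W972.AW.Defs

namespace Pool.Agent.W972.AW

open MeasureTheory ProbabilityTheory
open scoped ENNReal NNReal

variable {n : ℕ}

/-- no meeting in the first `k` steps -/
def NoMeet (π : Equiv.Perm (Fin n)) (k : ℕ) (x y : Schedule n) : Prop := ∀ t < k, x t ≠ π (y t)

instance (π : Equiv.Perm (Fin n)) (k : ℕ) (x y : Schedule n) : Decidable (NoMeet π k x y) := by
  unfold NoMeet; infer_instance

theorem meetTime_eq_tsum (π : Equiv.Perm (Fin n)) (x y : Schedule n) :
    meetTime π x y = ∑' k : ℕ, (if NoMeet π k x y then (1 : ℝ≥0∞) else 0) := by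
  classical
  by_cases h : ∃ t, x t = π (y t)
  · set t0 := Nat.find h with ht0
    have hs := Nat.find_spec h
    have hm : ∀ k, k ≤ t0 ↔ NoMeet π k x y := by
      intro k
      constructor
      · intro hk t ht hh
        exact absurd (Nat.find_min' h hh) (by omega)
      · intro hk
        by_contra hlt
        exact hk t0 (by omega) hs
    have h1 : meetTime π x y = ((t0 + 1 : ℕ) : ℝ≥0∞) := by
      unfold meetTime
      apply le_antisymm
      · exact iInf₂_le t0 hs
      · refine le_iInf₂ ?_
        intro t ht
        have := Nat.find_min' h ht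
        exact_mod_cast Nat.succ_le_succ this
    rw [h1]
    rw [tsum_eq_sum (s := Finset.range (t0 + 1))]
    · rw [Finset.sum_congr rfl (g := fun _ => (1 : ℝ≥0∞))]
      · simp
      · intro k hk
        rw [if_pos]
        exact (hm k).1 (by simpa [Nat.lt_succ_iff] using hk)
    · intro k hk
      rw [if_neg]
      intro hh
      exact hk (by simpa [Nat.lt_succ_iff] using (hm k).2 hh)
  · push_neg at h
    have h1 : meetTime π x y = ⊤ := by
      unfold meetTime
      simp only [Set.mem_setOf_eq, iInf_eq_top]
      intro t ht
      exact absurd ht (h t)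
    have h2 : ∀ k, (if NoMeet π k x y then (1 : ℝ≥0∞) else 0) = 1 := by
      intro k
      rw [if_pos]
      intro t _
      exact h t
    rw [h1]
    simp only [h2]
    exact (ENNReal.tsum_const_eq_top_of_ne_zero one_ne_zero).symm

theorem measurableSet_noMeet (π : Equiv.Perm (Fin n)) (k : ℕ) :
    MeasurableSet {q : Schedule n × Schedule n | NoMeet π k q.1 q.2} := by
  have : {q : Schedule n × Schedule n | NoMeet π k q.1 q.2} =
      ⋂ t : ℕ, ⋂ _ : t < k, {q : Schedule n × Schedule n | q.1 t ≠ π (q.2 t)} := by
    ext q
    simp [NoMeet]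
  rw [this]
  refine MeasurableSet.iInter fun t => MeasurableSet.iInter fun _ => ?_
  have h1 : Measurable (fun q : Schedule n × Schedule n => q.1 t) := by fun_prop
  have h2 : Measurable (fun q : Schedule n × Schedule n => π (q.2 t)) := by
    have : Measurable (fun q : Schedule n × Schedule n => q.2 t) := by fun_prop
    exact (measurable_of_finite π).comp this
  exact (measurableSet_eq_fun h1 h2).compl

theorem measurable_noMeet (π : Equiv.Perm (Fin n)) (k : ℕ) :
    Measurable (fun q : Schedule n × Schedule n => (if NoMeet π k q.1 q.2 then (1 : ℝ≥0∞) else 0)) := by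
  exact Measurable.ite (measurableSet_noMeet π k) measurable_const measurable_const

section

variable {B : Type*} [Fintype B] [Nonempty B]

/-- good pair of choices -/
def Good (play : B → ℕ → Fin n) (π : Equiv.Perm (Fin n)) (T : ℕ) (b b' : B) : Prop :=
  ∀ t < T, play b t ≠ π (play b' t)

instance (play : B → ℕ → Fin n) (π : Equiv.Perm (Fin n)) (T : ℕ) (b b' : B) :
    Decidable (Good play π T b b') := by
  unfold Good; infer_instance

theorem noMeet_block (play : B → ℕ → Fin n) (π : Equiv.Perm (Fin n)) {L : ℕ} (hL : 0 < L)
    (j T : ℕ) (hT : T ≤ L) (ω ω' : ℕ → B) :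
    NoMeet π (L * j + T) (blockSchedule L play ω) (blockSchedule L play ω') ↔
      ∀ i ∈ Finset.range (j + 1), Good play π (if i < j then L else T) (ω i) (ω' i) := by
  constructor
  · intro h i hi t ht
    have hi' : i ≤ j := by simpa [Nat.lt_succ_iff] using hi
    have htL : t < L := by
      split_ifs at ht with hij
      · exact ht
      · omega
    have key : L * i + t < L * j + T := by
      split_ifs at ht with hij
      · have : L * (i + 1) ≤ L * j := Nat.mul_le_mul_left L hij
        have h2 : L * (i + 1) = L * i + L := by ring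
        omega
      · have : i = j := by omega
        subst this
        omega
    have := h (L * i + t) key
    unfold blockSchedule at this
    rw [Nat.mul_add_div hL, Nat.div_eq_of_lt htL, Nat.mul_add_mod, Nat.mod_eq_of_lt htL] at this
    simpa using this
  · intro h s hs
    unfold blockSchedule
    have h1 : s % L < L := Nat.mod_lt _ hL
    have h2 : L * (s / L) + s % L = s := Nat.div_add_mod s L
    have h3 : s / L ≤ j := by
      by_contra hlt
      have : L * (j + 1) ≤ L * (s / L) := Nat.mul_le_mul_left L (by omega)
      have h4 : L * (j + 1) = L * j + L := by ring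
      omega
    refine h (s / L) (by simpa [Nat.lt_succ_iff] using h3) (s % L) ?_
    split_ifs with hij
    · exact h1
    · have : s / L = j := by omega
      rw [this] at h2
      omega

theorem surv_le_one (p : PMF B) (play : B → ℕ → Fin n) (π : Equiv.Perm (Fin n)) (T : ℕ) :
    surv p play π T ≤ 1 := by
  unfold surv
  have hp : ∑ b : B, p b = 1 := by
    have := p.tsum_coe
    rwa [tsum_fintype] at this
  calc ∑ b : B, ∑ b' : B, p b * (p b' * (if ∀ t < T, play b t ≠ π (play b' t) then 1 else 0))
      ≤ ∑ b : B, ∑ b' : B, p b * p b' := by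
        refine Finset.sum_le_sum fun b _ => Finset.sum_le_sum fun b' _ => ?_
        gcongr
        split_ifs <;> simp
    _ = 1 := by
        simp only [← Finset.mul_sum, hp, mul_one]

theorem prob_block (p : PMF B) (play : B → ℕ → Fin n) (π : Equiv.Perm (Fin n)) {L : ℕ} (hL : 0 < L)
    (j T : ℕ) (hT : T ≤ L) :
    letI : MeasurableSpace B := ⊤
    ∫⁻ ω, ∫⁻ ω', (if NoMeet π (L * j + T) (blockSchedule L play ω) (blockSchedule L play ω')
        then (1 : ℝ≥0∞) else 0) ∂(Measure.infinitePi fun _ : ℕ => p.toMeasure)
          ∂(Measure.infinitePi fun _ : ℕ => p.toMeasure) =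
      surv p play π L ^ j * surv p play π T := by
  classical
  letI : MeasurableSpace B := ⊤
  haveI : MeasurableSingletonClass B := ⟨fun _ => trivial⟩
  set P := Measure.infinitePi fun _ : ℕ => p.toMeasure with hP
  -- inner integral
  set h : ℕ → B → ℝ≥0∞ := fun i b => ∑ b' : B, p b' * (if Good play π (if i < j then L else T) b b' then 1 else 0)
    with hh
  have inner : ∀ ω : ℕ → B, ∫⁻ ω', (if NoMeet π (L * j + T) (blockSchedule L play ω)
      (blockSchedule L play ω') then (1 : ℝ≥0∞) else 0) ∂P = ∏ i ∈ Finset.range (j + 1), h i (ω i) := by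
    intro ω
    have hset : ∀ ω' : ℕ → B, (if NoMeet π (L * j + T) (blockSchedule L play ω)
      (blockSchedule L play ω') then (1 : ℝ≥0∞) else 0) =
        (Set.pi (Finset.range (j + 1) : Set ℕ)
          (fun i => {b' : B | Good play π (if i < j then L else T) (ω i) b'})).indicator 1 ω' := by
      intro ω'
      rw [Set.indicator_apply]
      congr 1
      rw [noMeet_block play π hL j T hT]
      simp [Set.mem_pi]
    rw [lintegral_congr hset, lintegral_indicator_one]
    · rw [hP, Measure.infinitePi_pi]
      · refine Finset.prod_congr rfl fun i _ => ?_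
        rw [PMF.toMeasure_apply _ (MeasurableSet.of_discrete), tsum_fintype]
        refine Finset.sum_congr rfl fun b' _ => ?_
        simp only [Set.indicator_apply, Set.mem_ofPred_eq]
        split_ifs <;> simp
      · intro i _
        exact MeasurableSet.of_discrete
    · refine MeasurableSet.pi (Finset.countable_toSet _) fun i _ => MeasurableSet.of_discrete
  rw [lintegral_congr inner]
  have hind : iIndepFun (fun (i : ℕ) (ω : ℕ → B) => h i (ω i)) P :=
    iIndepFun_infinitePi (X := fun i b => h i b) (fun i => measurable_of_finite _)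
  rw [lintegral_prod_eq_prod_lintegral_of_indepFun (Finset.range (j + 1)) _ hind
    (fun i => (measurable_of_finite (h i)).comp (measurable_pi_apply i))]
  have hsingle : ∀ i, ∫⁻ ω, h i (ω i) ∂P = ∑ b : B, p b * h i b := by
    intro i
    have := (measurePreserving_eval_infinitePi (fun _ : ℕ => p.toMeasure) i).lintegral_comp
      (f := h i) (measurable_of_finite _)
    simp only [Function.eval] at this
    rw [hP, this, lintegral_fintype]
    refine Finset.sum_congr rfl fun b _ => ?_
    rw [PMF.toMeasure_apply_singleton _ _ (measurableSet_singleton b), mul_comm]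
  simp only [hsingle]
  rw [Finset.prod_range_succ]
  congr 1
  · rw [Finset.prod_congr rfl (g := fun _ => surv p play π L)]
    · simp
    · intro i hi
      have hij : i < j := by simpa using hi
      unfold surv
      refine Finset.sum_congr rfl fun b _ => ?_
      rw [hh]
      simp only [hij, if_true, Finset.mul_sum]
      rfl
  · unfold surv
    refine Finset.sum_congr rfl fun b _ => ?_
    rw [hh]
    simp only [lt_irrefl, if_false, Finset.mul_sum]
    rfl

theorem measurable_blockSchedule (play : B → ℕ → Fin n) (L : ℕ) :
    letI : MeasurableSpace B := ⊤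
    Measurable (blockSchedule L play) := by
  letI : MeasurableSpace B := ⊤
  haveI : MeasurableSingletonClass B := ⟨fun _ => trivial⟩
  refine measurable_pi_iff.2 fun t => ?_
  unfold blockSchedule
  exact (measurable_of_finite (fun b => play b (t % L))).comp (measurable_pi_apply (t / L))

instance isProb_blockStrategy (p : PMF B) (L : ℕ) (play : B → ℕ → Fin n) :
    IsProbabilityMeasure (blockStrategy p L play) := by
  unfold blockStrategy
  letI : MeasurableSpace B := ⊤
  exact Measure.isProbabilityMeasure_map (measurable_blockSchedule play L).aemeasurable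

theorem lintegral_block (p : PMF B) (play : B → ℕ → Fin n) (π : Equiv.Perm (Fin n)) {L : ℕ}
    (hL : 0 < L) (j T : ℕ) (hT : T ≤ L) :
    ∫⁻ x, ∫⁻ y, (if NoMeet π (L * j + T) x y then (1 : ℝ≥0∞) else 0) ∂(blockStrategy p L play)
      ∂(blockStrategy p L play) = surv p play π L ^ j * surv p play π T := by
  letI : MeasurableSpace B := ⊤
  rw [← prob_block p play π hL j T hT]
  unfold blockStrategy
  have hm := measurable_blockSchedule (B := B) play L
  have hm1 : Measurable (fun q : Schedule n × Schedule n =>
      (if NoMeet π (L * j + T) q.1 q.2 then (1 : ℝ≥0∞) else 0)) := measurable_noMeet π _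
  rw [lintegral_map (hm1.lintegral_prod_right') hm]
  refine lintegral_congr fun ω => ?_
  rw [lintegral_map _ hm]
  exact hm1.comp measurable_prodMk_left

theorem mean_block (p : PMF B) (play : B → ℕ → Fin n) (π : Equiv.Perm (Fin n)) {L : ℕ} (hL : 0 < L) :
    ∫⁻ x, ∫⁻ y, meetTime π x y ∂(blockStrategy p L play) ∂(blockStrategy p L play) =
      (∑ T ∈ Finset.range L, surv p play π T) * (1 - surv p play π L)⁻¹ := by
  haveI : NeZero L := ⟨hL.ne'⟩
  have h1 : ∀ x : Schedule n, ∫⁻ y, meetTime π x y ∂(blockStrategy p L play) =
      ∑' k : ℕ, ∫⁻ y, (if NoMeet π k x y then (1 : ℝ≥0∞) else 0) ∂(blockStrategy p L play) := by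
    intro x
    simp only [meetTime_eq_tsum]
    rw [lintegral_tsum]
    intro k
    exact ((measurable_noMeet π k).comp measurable_prodMk_left).aemeasurable
  rw [lintegral_congr h1, lintegral_tsum]
  · have h2 : ∀ k : ℕ, ∫⁻ x, ∫⁻ y, (if NoMeet π k x y then (1 : ℝ≥0∞) else 0)
        ∂(blockStrategy p L play) ∂(blockStrategy p L play) =
        surv p play π L ^ (k / L) * surv p play π (k % L) := by
      intro k
      rw [← lintegral_block p play π hL (k / L) (k % L) (Nat.mod_lt _ hL).le, Nat.div_add_mod]
    simp only [h2]
    rw [← (Nat.divModEquiv L).symm.tsum_eq]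
    have h3 : ∀ c : ℕ × Fin L, (Nat.divModEquiv L).symm c = c.1 * L + c.2 := by
      intro c; rfl
    have h4 : ∀ (a : ℕ) (b : Fin L), (a * L + (b : ℕ)) / L = a ∧ (a * L + (b : ℕ)) % L = b := by
      intro a b
      constructor
      · rw [mul_comm, Nat.mul_add_div hL, Nat.div_eq_of_lt b.2, add_zero]
      · rw [mul_comm, Nat.mul_add_mod, Nat.mod_eq_of_lt b.2]
    simp only [h3, (h4 _ _).1, (h4 _ _).2]
    rw [ENNReal.tsum_prod (f := fun (a : ℕ) (b : Fin L) => surv p play π L ^ a * surv p play π b)]
    simp only [tsum_fintype]
    simp only [← Finset.mul_sum, ENNReal.tsum_mul_right, ENNReal.tsum_geometric]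
    rw [mul_comm, Finset.sum_range]
  · intro k
    exact ((measurable_noMeet π k).lintegral_prod_right').aemeasurable

end

end Pool.Agent.W972.AW
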