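import Mathlib

/-!
# Symmetric rendezvous search on `n` locations: definitions

Labels are elements of `Fin n`.  Steps are numbered `1, 2, 3, …` and the entry number `t` of a walk schedule is
the label used at step `t + 1`.
-/

namespace Pool.Agent.W972.AW

open MeasureTheory
open scoped ENNReal NNReal

/-- A walk schedule: `x t` is the label of the location where the player stands at step `t + 1`. -/
abbrev Schedule (n : ℕ) := ℕ → Fin n

/-- The meeting time `min {t ≥ 1 : x_t = π (y_t)}`; it is `⊤` if the players never meet. -/
noncomputable def meetTime {n : ℕ} (π : Equiv.Perm (Fin n)) (x y : Schedule n) : ℝ≥0∞ :=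
  ⨅ t ∈ {t : ℕ | x t = π (y t)}, ((t + 1 : ℕ) : ℝ≥0∞)

/-- The expected meeting time of two players who draw their schedules independently from `D`, the
permutation `π` relating the labellings being uniform and independent of the schedules. -/
noncomputable def meanTime {n : ℕ} (D : Measure (Schedule n)) : ℝ≥0∞ :=
  (∑ π : Equiv.Perm (Fin n), ∫⁻ x, ∫⁻ y, meetTime π x y ∂D ∂D) / (n.factorial : ℝ≥0∞)

/-- The schedule of a player who plays in blocks of `L` steps; `ω j` is her choice in block number `j`,
and with the choice `b` she uses the label `play b i` at step number `i < L` of the block. -/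
def blockSchedule {B : Type*} {n : ℕ} (L : ℕ) (play : B → ℕ → Fin n) (ω : ℕ → B) : Schedule n :=
  fun t => play (ω (t / L)) (t % L)

/-- The strategy of a player who plays in blocks of `L` steps and draws the choices in the different
blocks independently from `p`. -/
noncomputable def blockStrategy {B : Type*} {n : ℕ} (p : PMF B) (L : ℕ) (play : B → ℕ → Fin n) :
    Measure (Schedule n) :=
  letI : MeasurableSpace B := ⊤
  (Measure.infinitePi fun _ : ℕ => p.toMeasure).map (blockSchedule L play)

/-- The law of the choice of an Anderson-Weber player in one block: with probability `θ` she stays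
(`none`), with probability `1 - θ` she makes a tour in a uniformly random order `ρ` (`some ρ`). -/
noncomputable def awChoice (n : ℕ) (θ : ℝ≥0) (h : θ ≤ 1) : PMF (Option (Equiv.Perm (Fin n))) :=
  PMF.ofFintype (fun b => match b with
    | none => (θ : ℝ≥0∞)
    | some _ => (1 - (θ : ℝ≥0∞)) / (n.factorial : ℝ≥0∞)) (by
      have h1 : (n.factorial : ℝ≥0∞) ≠ 0 := by exact_mod_cast n.factorial_ne_zero
      have h2 : (n.factorial : ℝ≥0∞) ≠ ⊤ := ENNReal.natCast_ne_top _
      rw [Fintype.sum_option, Finset.sum_const, Finset.card_univ, Fintype.card_perm,
        Fintype.card_fin, nsmul_eq_mul, ENNReal.mul_div_cancel h1 h2]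
      exact add_tsub_cancel_of_le (show (θ : ℝ≥0∞) ≤ 1 by exact_mod_cast h))

/-- What an Anderson-Weber player does at step number `i` of a block: she stays at her first label (`0`),
or she visits all labels in the order `ρ`. -/
def awPlay (n : ℕ) [NeZero n] : Option (Equiv.Perm (Fin n)) → ℕ → Fin n
  | none, _ => 0
  | some ρ, i => ρ (Fin.ofNat n i)

/-- The Anderson-Weber strategy with parameter `θ`: blocks of `n` steps. -/
noncomputable def awStrategy (n : ℕ) [NeZero n] (θ : ℝ≥0) (h : θ ≤ 1) : Measure (Schedule n) :=
  blockStrategy (awChoice n θ h) n (awPlay n)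

/-- The least expected meeting time of an Anderson-Weber strategy. -/
noncomputable def awBest (n : ℕ) [NeZero n] : ℝ≥0∞ :=
  ⨅ (θ : ℝ≥0) (h : θ ≤ 1), meanTime (awStrategy n θ h)

/-- `E_n`, the infimum of the expected meeting time over all symmetric strategies. -/
noncomputable def bestTime (n : ℕ) : ℝ≥0∞ :=
  ⨅ (D : Measure (Schedule n)) (_ : IsProbabilityMeasure D), meanTime D

/-- Survival: the probability that two players, who draw their choices in one block independently from
`p`, do not meet in the first `T` steps of the block, if `π` relates their labels. -/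
noncomputable def surv {B : Type*} [Fintype B] {n : ℕ} (p : PMF B) (play : B → ℕ → Fin n)
    (π : Equiv.Perm (Fin n)) (T : ℕ) : ℝ≥0∞ :=
  ∑ b : B, ∑ b' : B, p b * (p b' * (if ∀ t < T, play b t ≠ π (play b' t) then 1 else 0))

end Pool.Agent.W972.AW
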