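import Pool.Agent.W972.AW.Num

namespace Pool.Agent.W972.AW

open Finset Filter Topology MeasureTheory
open scoped ENNReal NNReal

theorem rr_bounds : 0.60653065 < rr ∧ rr < 0.60653067 := by
  have h1 := Real.exp_one_gt_d9
  have h2 := Real.exp_one_lt_d9
  have h3 : Real.exp (-1) = (Real.exp 1)⁻¹ := Real.exp_neg 1
  have hpos : 0 < Real.exp 1 := Real.exp_pos 1
  unfold rr
  constructor
  · apply Real.lt_sqrt_of_sq_lt
    rw [h3, lt_inv_comm₀ (by norm_num) hpos]
    refine h2.trans_le ?_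
    norm_num
  · rw [Real.sqrt_lt' (by norm_num), h3, inv_lt_comm₀ hpos (by norm_num)]
    refine lt_of_le_of_lt ?_ h1
    norm_num

theorem kappa_bounds : 0.36787944 < Real.exp (-1) ∧ Real.exp (-1) < 0.36787945 := by
  have h1 := Real.exp_one_gt_d9
  have h2 := Real.exp_one_lt_d9
  have h3 : Real.exp (-1) = (Real.exp 1)⁻¹ := Real.exp_neg 1
  have hpos : 0 < Real.exp 1 := Real.exp_pos 1
  rw [h3]
  constructor
  · rw [lt_inv_comm₀ (by norm_num) hpos]
    refine h2.trans_le ?_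
    norm_num
  · rw [inv_lt_comm₀ hpos (by norm_num)]
    refine lt_of_le_of_lt ?_ h1
    norm_num

theorem cAW_bounds : 0.82888 < cAW ∧ cAW < 0.82889 := by
  obtain ⟨h1, h2⟩ := kappa_bounds
  unfold cAW cc
  set κ := Real.exp (-1)
  constructor
  · have : 1.2898806 < √((1 - κ) * (3 - κ)) := by
      apply Real.lt_sqrt_of_sq_lt
      nlinarith
    linarith
  · have : √((1 - κ) * (3 - κ)) < 1.2899005 := by
      rw [Real.sqrt_lt' (by norm_num)]
      nlinarith
    linarith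

theorem AA_BB_bound : BB rr (1 / 2) < 1 ∧ AA rr (1 / 2) < 0.82876 * (1 - BB rr (1 / 2)) := by
  obtain ⟨h1, h2⟩ := rr_bounds
  rw [AA_half, BB_half]
  simp only [sum_range_succ, range_zero, sum_empty, coefA_0, coefA_1, coefA_2, coefA_3, coefA_4,
    coefA_5, coefA_6, coefA_7, coefB_0, coefB_1, coefB_2, coefB_3, coefB_4, coefB_5, coefB_6]
  push_cast
  have hp : (0 : ℝ) ≤ 0.60653065 := by norm_num
  have hr : (0 : ℝ) ≤ rr := by linarith
  have l : ∀ j : ℕ, (0.60653065 : ℝ) ^ j ≤ rr ^ j := fun j => pow_le_pow_left₀ hp h1.le j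
  have u : ∀ j : ℕ, rr ^ j ≤ (0.60653067 : ℝ) ^ j := fun j => pow_le_pow_left₀ hr h2.le j
  have l2 := l 2
  have l3 := l 3
  have l4 := l 4
  have l6 := l 6
  have u2 := u 2
  have u3 := u 3
  have u4 := u 4
  have u6 := u 6
  norm_num at l2 l3 l4 l6 u2 u3 u4 u6 ⊢
  constructor <;> linarith

/-- The new strategy eventually has mean time at most `0.82876 n`. -/
theorem new_value : ∃ n₀ : ℕ, ∀ (n : ℕ) [NeZero n], n₀ ≤ n → ∃ hM : 0 < MM n,
      meanTime (newStrategy n (NN n) (MM n) hM) ≤ ENNReal.ofReal (0.82876 * n) :=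
  new_limit (by norm_num) AA_BB_bound.1 AA_BB_bound.2

end Pool.Agent.W972.AW
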