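import Pool.Agent.W972.AW.Sums
import Pool.Agent.W972.AW.AWlim

namespace Pool.Agent.W972.AW

open Finset Filter Topology MeasureTheory
open scoped ENNReal NNReal

def NN (n : ℕ) : ℕ := (n - 1) / 2
def MM (n : ℕ) : ℕ := (n - 1) / 12

/-- `exp (-1/2)` -/
noncomputable def rr : ℝ := √(Real.exp (-1))

theorem tendsto_one_sub : Tendsto (fun n : ℕ => 1 - 1 / (n : ℝ)) atTop (𝓝 1) := by
  have := tendsto_const_nhds (x := (1 : ℝ)) (f := atTop (α := ℕ)) |>.sub
    (tendsto_one_div_atTop_nhds_zero_nat (𝕜 := ℝ))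
  simpa using this

theorem tendsto_R : Tendsto (fun n : ℕ => (1 - 1 / (n : ℝ)) ^ NN n) atTop (𝓝 rr) := by
  -- squares
  have h1 : Tendsto (fun n : ℕ => ((1 - 1 / (n : ℝ)) ^ NN n) ^ 2) atTop (𝓝 (Real.exp (-1))) := by
    have h2 : Tendsto (fun n : ℕ => (1 - 1 / (n : ℝ)) ^ n / (1 - 1 / (n : ℝ)) ^ 1) atTop
        (𝓝 (Real.exp (-1))) := by
      have := tendsto_kappa.div (tendsto_one_sub.pow 1) (by norm_num)
      simp only [one_pow, div_one] at this
      exact this
    have h3 : Tendsto (fun n : ℕ => (1 - 1 / (n : ℝ)) ^ n / (1 - 1 / (n : ℝ)) ^ 2) atTop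
        (𝓝 (Real.exp (-1))) := by
      have := tendsto_kappa.div (tendsto_one_sub.pow 2) (by norm_num)
      simp only [one_pow, div_one] at this
      exact this
    refine tendsto_of_tendsto_of_tendsto_of_le_of_le' h2 h3 ?_ ?_
    · filter_upwards [eventually_ge_atTop 3] with n hn
      have hn' : (3 : ℝ) ≤ n := by exact_mod_cast hn
      have hp : 0 < 1 - 1 / (n : ℝ) := by
        rw [sub_pos, div_lt_one (by linarith)]; linarith
      have hp1 : 1 - 1 / (n : ℝ) ≤ 1 := by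
        have : 0 ≤ 1 / (n : ℝ) := by positivity
        linarith
      rw [div_le_iff₀ (pow_pos hp 1), ← pow_mul, ← pow_add]
      apply pow_le_pow_of_le_one hp.le hp1
      unfold NN
      omega
    · filter_upwards [eventually_ge_atTop 3] with n hn
      have hn' : (3 : ℝ) ≤ n := by exact_mod_cast hn
      have hp : 0 < 1 - 1 / (n : ℝ) := by
        rw [sub_pos, div_lt_one (by linarith)]; linarith
      have hp1 : 1 - 1 / (n : ℝ) ≤ 1 := by
        have : 0 ≤ 1 / (n : ℝ) := by positivity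
        linarith
      rw [le_div_iff₀ (pow_pos hp 2), ← pow_mul, ← pow_add]
      apply pow_le_pow_of_le_one hp.le hp1
      unfold NN
      omega
  have h4 := (Real.continuous_sqrt.tendsto _).comp h1
  refine h4.congr' ?_
  filter_upwards [eventually_ge_atTop 3] with n hn
  have hn' : (3 : ℝ) ≤ n := by exact_mod_cast hn
  have hp : 0 < 1 - 1 / (n : ℝ) := by
    rw [sub_pos, div_lt_one (by linarith)]; linarith
  simp only [Function.comp]
  exact Real.sqrt_sq (pow_nonneg hp.le _)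

theorem tendsto_ν : Tendsto (fun n : ℕ => (NN n : ℝ) / n) atTop (𝓝 (1 / 2)) := by
  have h1 : Tendsto (fun n : ℕ => 1 / 2 - 1 / (n : ℝ)) atTop (𝓝 (1 / 2)) := by
    have := tendsto_const_nhds (x := (1 / 2 : ℝ)) (f := atTop (α := ℕ)) |>.sub
      (tendsto_one_div_atTop_nhds_zero_nat (𝕜 := ℝ))
    simpa using this
  refine tendsto_of_tendsto_of_tendsto_of_le_of_le' h1 tendsto_const_nhds ?_ ?_
  · filter_upwards [eventually_ge_atTop 3] with n hn
    have hn' : (3 : ℝ) ≤ n := by exact_mod_cast hn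
    rw [le_div_iff₀ (by linarith)]
    have : n ≤ 2 * NN n + 2 := by unfold NN; omega
    have h2 : (n : ℝ) ≤ 2 * NN n + 2 := by exact_mod_cast this
    have h3 : (1 / 2 - 1 / (n : ℝ)) * n = n / 2 - 1 := by field_simp
    rw [h3]
    linarith
  · filter_upwards [eventually_ge_atTop 3] with n hn
    have hn' : (3 : ℝ) ≤ n := by exact_mod_cast hn
    rw [div_le_iff₀ (by linarith)]
    have : 2 * NN n ≤ n := by unfold NN; omega
    have h2 : (2 : ℝ) * NN n ≤ n := by exact_mod_cast this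
    linarith

theorem err_le {n : ℕ} (hn : 100 ≤ n) : err n (MM n) ≤ 50 / n := by
  have hn' : (100 : ℝ) ≤ n := by exact_mod_cast hn
  have h1 : (n : ℝ) ≤ 12 * MM n + 12 := by
    have : n ≤ 12 * MM n + 12 := by unfold MM; omega
    exact_mod_cast this
  have hM : (0 : ℝ) < MM n := by linarith
  unfold err
  have h2 : 10 / ((n : ℝ) - 1) ≤ 20 / n := by
    rw [div_le_div_iff₀ (by linarith) (by linarith)]; linarith
  have h3 : 1 / (MM n : ℝ) ≤ 30 / n := by
    rw [div_le_div_iff₀ hM (by linarith)]; linarith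
  have h4 : (50 : ℝ) / n = 20 / n + 30 / n := by ring
  linarith

theorem generic_limit {a b : ℕ → ℝ} {a₀ b₀ c : ℝ} (ha : Tendsto a atTop (𝓝 a₀))
    (hb : Tendsto b atTop (𝓝 b₀)) (hB : b₀ < 1) (hc : a₀ < c * (1 - b₀)) :
    ∀ᶠ n : ℕ in atTop, a n + 200 * (1 / (n : ℝ)) < c * (1 - b n - 50 * (1 / (n : ℝ))) ∧
      0 < 1 - b n - 50 * (1 / (n : ℝ)) := by
  have hinv := tendsto_one_div_atTop_nhds_zero_nat (𝕜 := ℝ)
  have h1 : Tendsto (fun n : ℕ => a n + 200 * (1 / (n : ℝ)))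
      atTop (𝓝 (a₀ + 200 * 0)) := ha.add (tendsto_const_nhds.mul hinv)
  have h3 : Tendsto (fun n : ℕ => 1 - b n - 50 * (1 / (n : ℝ))) atTop (𝓝 (1 - b₀ - 50 * 0)) :=
    (tendsto_const_nhds.sub hb).sub (tendsto_const_nhds.mul hinv)
  have h2 : Tendsto (fun n : ℕ => c * (1 - b n - 50 * (1 / (n : ℝ)))) atTop
      (𝓝 (c * (1 - b₀ - 50 * 0))) := tendsto_const_nhds.mul h3
  have e1 := h1.eventually_lt h2 (by simpa using hc)
  have e2 := h3.eventually (eventually_gt_nhds (show (0 : ℝ) < 1 - b₀ - 50 * 0 by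
    rw [mul_zero, sub_zero]; linarith))
  exact e1.and e2

theorem final_step {n N : ℕ} {a b e c : ℝ} (hn : 100 ≤ n) (h4 : (2 : ℝ) * N ≤ n) (herr0 : 0 ≤ e)
    (he : e ≤ 50 / n) (hc0 : 0 ≤ c) (g1 : a + 200 * (1 / (n : ℝ)) < c * (1 - b - 50 * (1 / (n : ℝ))))
    (hpos : 0 < 1 - b - e) :
    (n * a + 6 + 6 * N * e) / (1 - b - e) ≤ c * n := by
  have hn' : (100 : ℝ) ≤ n := by exact_mod_cast hn
  rw [div_le_iff₀ hpos]
  have he2 : (50 : ℝ) / n = 50 * (1 / (n : ℝ)) := by ring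
  have hN : 6 * (N : ℝ) * e ≤ 150 := by
    calc 6 * (N : ℝ) * e ≤ 3 * n * (50 / n) := by
          apply mul_le_mul _ he herr0 (by linarith)
          linarith
      _ = 150 := by field_simp; norm_num
  have g1' : (a + 200 * (1 / (n : ℝ))) * n < c * (1 - b - 50 * (1 / (n : ℝ))) * n :=
    mul_lt_mul_of_pos_right g1 (by linarith)
  have h5 : (a + 200 * (1 / (n : ℝ))) * n = n * a + 200 := by field_simp
  rw [h5] at g1'
  have h6 : c * n * (1 - b - 50 * (1 / (n : ℝ))) ≤ c * n * (1 - b - e) := by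
    apply mul_le_mul_of_nonneg_left _ (by positivity)
    linarith
  linarith


end Pool.Agent.W972.AW
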