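import Pool.Agent.W972.AW.Lim
namespace Pool.Agent.W972.AW

open Finset Filter Topology MeasureTheory
open scoped ENNReal NNReal


attribute [local irreducible] AA BB

theorem tA : Tendsto (fun n : ℕ => AA ((1 - 1 / (n : ℝ)) ^ NN n) ((NN n : ℝ) / n)) atTop
      (𝓝 (AA rr (1 / 2))) := (continuous_AA.tendsto (rr, 1 / 2)).comp (tendsto_R.prodMk_nhds tendsto_ν)

theorem tB : Tendsto (fun n : ℕ => BB ((1 - 1 / (n : ℝ)) ^ NN n) ((NN n : ℝ) / n)) atTop
      (𝓝 (BB rr (1 / 2))) := (continuous_BB.tendsto (rr, 1 / 2)).comp (tendsto_R.prodMk_nhds tendsto_ν)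

theorem stepX {n : ℕ} [NeZero n] {c a b : ℝ} (g3 : 100 ≤ n) (hM : 0 < MM n) (hc0 : 0 ≤ c)
   (ha : AA ((1 - 1 / (n : ℝ)) ^ NN n) ((NN n : ℝ) / n) = a)
   (hb : BB ((1 - 1 / (n : ℝ)) ^ NN n) ((NN n : ℝ) / n) = b)
   (g1 : a + 200 * (1 / (n : ℝ)) < c * (1 - b - 50 * (1 / (n : ℝ)))) (g2 : 0 < 1 - b - 50 * (1 / (n : ℝ))) :
   meanTime (newStrategy n (NN n) (MM n) hM) ≤ ENNReal.ofReal (c * n) := by
  have he := err_le g3
  have he2 : (50 : ℝ) / n = 50 * (1 / (n : ℝ)) := by ring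
  have hpos : 0 < 1 - b - err n (MM n) := by linarith
  have hNN : 2 * NN n + 1 ≤ n := by unfold NN; omega
  have hNN0 : 0 < NN n := by unfold NN; omega
  have hMN : 6 * MM n ≤ NN n := by unfold MM NN; omega
  have herr0 : 0 ≤ err n (MM n) := by
    have hn' : (100 : ℝ) ≤ n := by exact_mod_cast g3
    unfold err
    have : 0 ≤ 10 / ((n : ℝ) - 1) := by
      apply div_nonneg (by norm_num); linarith
    positivity
  have h4 : (2 : ℝ) * NN n ≤ n := by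
    have : 2 * NN n ≤ n := by omega
    exact_mod_cast this
  have h5 := final_step g3 h4 herr0 he hc0 g1 hpos
  have h6 := mean_new_le (n := n) hNN0 hNN hM hMN (by rw [hb]; exact hpos)
  rw [ha, hb] at h6
  exact h6.trans (ENNReal.ofReal_le_ofReal h5)


theorem new_limit {c : ℝ} (hc0 : 0 ≤ c) (hB : BB rr (1 / 2) < 1)
    (hc : AA rr (1 / 2) < c * (1 - BB rr (1 / 2))) :
    ∃ n₀ : ℕ, ∀ (n : ℕ) [NeZero n], n₀ ≤ n → ∃ hM : 0 < MM n,
      meanTime (newStrategy n (NN n) (MM n) hM) ≤ ENNReal.ofReal (c * n) := by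
  obtain ⟨n₁, h1⟩ := eventually_atTop.1 (generic_limit tA tB hB hc)
  refine ⟨max n₁ 100, fun n _ hn => ?_⟩
  have hn1 : n₁ ≤ n := (le_max_left _ _).trans hn
  have hn2 : 100 ≤ n := (le_max_right _ _).trans hn
  have hM : 0 < MM n := by unfold MM; omega
  obtain ⟨g1, g2⟩ := h1 n hn1
  exact ⟨hM, stepX hn2 hM hc0 rfl rfl g1 g2⟩

end Pool.Agent.W972.AW
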