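import Pool.Agent.W972.AW.Word

namespace Pool.Agent.W972.AW

open Finset Filter Topology MeasureTheory
open scoped ENNReal NNReal

/-- The nine words of the new strategy. -/
def wd : Fin 9 → List (Option Bool) :=
  ![[none, none, none, none, none, none],
    [none, none, none, none, some false, some true],
    [none, none, some false, some true, none, none],
    [none, none, some false, some true, some true, some false],
    [some false, some true, some false, some true, some false, some true],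
    [some false, some true, some false, some true, none, none],
    [some false, none, none, some true, none, some true],
    [some false, some true, none, none, none, none],
    [some false, some true, none, none, some false, some true]]

def word (s : Fin 9) : Word := fun k => (wd s).getD k none

/-- The weights of the nine words, in units of `1/10000`. -/
def wt : Fin 9 → ℕ := ![148, 449, 436, 1391, 4258, 1400, 140, 388, 1390]

theorem sum_wt : ∑ s, wt s = 10000 := by decide

/-- The law of the choice of a player in one block of the new strategy: a word, a shift parameter and a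
relabelling of the locations. -/
noncomputable def newChoice (n M : ℕ) (hM : 0 < M) : PMF (Fin 9 × (Fin M × Equiv.Perm (Fin n))) :=
  PMF.ofFintype (fun b => ((wt b.1 : ℝ≥0∞) / 10000) * ((M : ℝ≥0∞)⁻¹ * (n.factorial : ℝ≥0∞)⁻¹)) (by
    have h1 : (n.factorial : ℝ≥0∞) ≠ 0 := by exact_mod_cast n.factorial_ne_zero
    have h2 : (n.factorial : ℝ≥0∞) ≠ ⊤ := ENNReal.natCast_ne_top _
    have h3 : (M : ℝ≥0∞) ≠ 0 := by exact_mod_cast hM.ne'
    have h4 : (M : ℝ≥0∞) ≠ ⊤ := ENNReal.natCast_ne_top _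
    rw [Fintype.sum_prod_type]
    simp only [sum_const, card_univ, Fintype.card_prod, Fintype.card_fin, Fintype.card_perm,
      nsmul_eq_mul, Nat.cast_mul]
    have h5 : ∀ s : Fin 9, (M : ℝ≥0∞) * (n.factorial : ℝ≥0∞) * (((wt s : ℝ≥0∞) / 10000) *
        ((M : ℝ≥0∞)⁻¹ * (n.factorial : ℝ≥0∞)⁻¹)) = (wt s : ℝ≥0∞) / 10000 := by
      intro s
      calc _ = ((M : ℝ≥0∞) * (M : ℝ≥0∞)⁻¹) * ((n.factorial : ℝ≥0∞) * (n.factorial : ℝ≥0∞)⁻¹) *
            ((wt s : ℝ≥0∞) / 10000) := by ring
        _ = _ := by rw [ENNReal.mul_inv_cancel h3 h4, ENNReal.mul_inv_cancel h1 h2, one_mul, one_mul]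
    rw [sum_congr rfl fun s _ => h5 s]
    simp only [div_eq_mul_inv]
    rw [← sum_mul, ← Nat.cast_sum, sum_wt]
    norm_num
    exact ENNReal.mul_inv_cancel (by norm_num) (by norm_num))

/-- what a player of the new strategy does with the choice `(s, r, ρ)` -/
def newPlay (n : ℕ) [NeZero n] (N M : ℕ) (b : Fin 9 × (Fin M × Equiv.Perm (Fin n))) (t : ℕ) : Fin n :=
  b.2.2 (lab n N (word b.1) b.2.1 t)

/-- the new strategy -/
noncomputable def newStrategy (n : ℕ) [NeZero n] (N M : ℕ) (hM : 0 < M) : Measure (Schedule n) :=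
  blockStrategy (newChoice n M hM) (6 * N) (newPlay n N M)

variable {n : ℕ}

theorem surv_new [NeZero n] (N M : ℕ) (hM : 0 < M) (π : Equiv.Perm (Fin n)) (T : ℕ) :
    surv (newChoice n M hM) (newPlay n N M) π T =
      ∑ s : Fin 9, ∑ s' : Fin 9, ((wt s : ℝ≥0∞) / 10000) * ((wt s' : ℝ≥0∞) / 10000) *
        ∑ r : Fin M, ∑ r' : Fin M, (M : ℝ≥0∞)⁻¹ * (M : ℝ≥0∞)⁻¹ *
          ENNReal.ofReal (q (pairs (lab n N (word s) r) (lab n N (word s') r') T)) := by
  unfold surv
  rw [Fintype.sum_prod_type]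
  refine sum_congr rfl fun s _ => ?_
  rw [Fintype.sum_prod_type]
  simp only [Fintype.sum_prod_type]
  -- reorder
  have hreorder : ∀ F : Fin M → Equiv.Perm (Fin n) → Fin 9 → Fin M → Equiv.Perm (Fin n) → ℝ≥0∞,
      (∑ r, ∑ ρ, ∑ s', ∑ r', ∑ ρ', F r ρ s' r' ρ') = ∑ s', ∑ r, ∑ r', ∑ ρ, ∑ ρ', F r ρ s' r' ρ' := by
    intro F
    calc (∑ r, ∑ ρ, ∑ s', ∑ r', ∑ ρ', F r ρ s' r' ρ')
        = ∑ r, ∑ s', ∑ ρ, ∑ r', ∑ ρ', F r ρ s' r' ρ' := sum_congr rfl fun r _ => sum_comm
      _ = ∑ r, ∑ s', ∑ r', ∑ ρ, ∑ ρ', F r ρ s' r' ρ' :=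
          sum_congr rfl fun r _ => sum_congr rfl fun s' _ => sum_comm
      _ = _ := sum_comm
  rw [hreorder]
  refine sum_congr rfl fun s' _ => ?_
  rw [mul_sum]
  refine sum_congr rfl fun r _ => ?_
  rw [mul_sum]
  refine sum_congr rfl fun r' _ => ?_
  rw [← relabel_prob (lab n N (word s) r) (lab n N (word s') r') π T, mul_sum, mul_sum]
  refine sum_congr rfl fun ρ _ => ?_
  rw [mul_sum, mul_sum]
  refine sum_congr rfl fun ρ' _ => ?_
  have e : ∀ (s : Fin 9) (r : Fin M) (ρ : Equiv.Perm (Fin n)), newChoice n M hM (s, r, ρ) =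
      ((wt s : ℝ≥0∞) / 10000) * ((M : ℝ≥0∞)⁻¹ * (n.factorial : ℝ≥0∞)⁻¹) := by
    intro s r ρ
    unfold newChoice
    rw [PMF.ofFintype_apply]
  rw [e, e]
  simp only [newPlay]
  have fin : ((wt s : ℝ≥0∞) / 10000) * ((M : ℝ≥0∞)⁻¹ * (n.factorial : ℝ≥0∞)⁻¹) *
      (((wt s' : ℝ≥0∞) / 10000) * ((M : ℝ≥0∞)⁻¹ * (n.factorial : ℝ≥0∞)⁻¹) *
      (if ∀ t < T, ρ (lab n N (word s) r t) ≠ π (ρ' (lab n N (word s') r' t)) then (1 : ℝ≥0∞) else 0)) =
      ((wt s : ℝ≥0∞) / 10000) * ((wt s' : ℝ≥0∞) / 10000) * ((M : ℝ≥0∞)⁻¹ * (M : ℝ≥0∞)⁻¹ *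
      ((n.factorial : ℝ≥0∞)⁻¹ * ((n.factorial : ℝ≥0∞)⁻¹ *
      (if ∀ t < T, ρ (lab n N (word s) r t) ≠ π (ρ' (lab n N (word s') r' t)) then (1 : ℝ≥0∞) else 0)))) := by
    ring
  convert fin

/-- weights as real numbers -/
noncomputable def cw (s : Fin 9) : ℝ := (wt s : ℝ) / 10000

theorem cw_nonneg (s : Fin 9) : 0 ≤ cw s := by unfold cw; positivity

theorem sum_cw : ∑ s, cw s = 1 := by
  unfold cw
  rw [← sum_div, ← Nat.cast_sum, sum_wt]
  norm_num

/-- main term of the survival probability -/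
noncomputable def mm (n N : ℕ) (w v : Word) (k i : ℕ) : ℝ :=
  (1 - 1 / (n : ℝ)) ^ (N * cnt (tt w v) k + (if tt w v k then i else 0)) *
      ((1 - ((na w v k * N + (if newb w v k then i else 0) : ℕ) : ℝ) / n) *
      (1 - ((na v w k * N + (if newb v w k then i else 0) : ℕ) : ℝ) / n))

theorem newb_le {w v : Word} {k : ℕ} (h : newb w v k = true) : na w v k ≤ 1 := by
  unfold newb at h
  split at h
  · rename_i c _ _
    unfold na
    have h1 : (cov w v false k).toNat ≤ 1 := Bool.toNat_le _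
    have h2 : (cov w v true k).toNat ≤ 1 := Bool.toNat_le _
    cases c <;> simp_all
  · simp at h

theorem frac_nonneg {N : ℕ} (hn : 2 * N + 1 ≤ n) (w v : Word) (k : ℕ) {i : ℕ} (hi : i ≤ N) :
    0 ≤ 1 - ((na w v k * N + (if newb w v k then i else 0) : ℕ) : ℝ) / n := by
  have hn0 : (0 : ℝ) < n := by exact_mod_cast (show 0 < n by omega)
  rw [sub_nonneg, div_le_one hn0]
  have : na w v k * N + (if newb w v k then i else 0) ≤ n := by
    split_ifs with h
    · have := newb_le h
      nlinarith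
    · have := na_le_two w v k
      nlinarith
  exact_mod_cast this

theorem mm_nonneg {N : ℕ} (hn : 2 * N + 1 ≤ n) (w v : Word) (k : ℕ) {i : ℕ} (hi : i ≤ N) :
    0 ≤ mm n N w v k i := by
  have hn1 : (1 : ℝ) ≤ n := by exact_mod_cast (show 1 ≤ n by omega)
  unfold mm
  apply mul_nonneg
  · apply pow_nonneg
    rw [sub_nonneg, div_le_one (by linarith)]; linarith
  · exact mul_nonneg (frac_nonneg hn w v k hi) (frac_nonneg hn v w k hi)

/-- the total survival bound -/
noncomputable def SS (n N : ℕ) (k i : ℕ) : ℝ :=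
  ∑ s : Fin 9, ∑ s' : Fin 9, cw s * cw s' * mm n N (word s) (word s') k i

noncomputable def err (n M : ℕ) : ℝ := 10 / ((n : ℝ) - 1) + 1 / M

theorem surv_new_le [NeZero n] {N M : ℕ} (hN : 0 < N) (hn : 2 * N + 1 ≤ n) (hM0 : 0 < M)
    (hM : 6 * M ≤ N) (π : Equiv.Perm (Fin n)) (k : ℕ) {i : ℕ} (hi : i ≤ N) (hT : k * N + i ≤ 6 * N) :
    surv (newChoice n M hM0) (newPlay n N M) π (k * N + i) ≤
      ENNReal.ofReal (SS n N k i + err n M) := by
  have hnr : (3 : ℝ) ≤ n := by exact_mod_cast (show 3 ≤ n by omega)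
  have hMr : (0 : ℝ) < M := by exact_mod_cast hM0
  have hpos : 0 ≤ 10 / ((n : ℝ) - 1) := by
    apply div_nonneg (by norm_num); linarith
  rw [surv_new]
  have hwt : ∀ s : Fin 9, (wt s : ℝ≥0∞) / 10000 = ENNReal.ofReal (cw s) := by
    intro s
    unfold cw
    rw [ENNReal.ofReal_div_of_pos (by norm_num), ENNReal.ofReal_natCast]
    norm_num
  have hMinv : (M : ℝ≥0∞)⁻¹ = ENNReal.ofReal ((M : ℝ)⁻¹) := by
    rw [ENNReal.ofReal_inv_of_pos hMr, ENNReal.ofReal_natCast]
  have hinner : ∀ s s' : Fin 9, (∑ r : Fin M, ∑ r' : Fin M, (M : ℝ≥0∞)⁻¹ * (M : ℝ≥0∞)⁻¹ *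
          ENNReal.ofReal (q (pairs (lab n N (word s) r) (lab n N (word s') r') (k * N + i)))) ≤
      ENNReal.ofReal (mm n N (word s) (word s') k i + err n M) := by
    intro s s'
    have hmm := mm_nonneg hn (word s) (word s') k hi
    have h1 : ∀ r r' : Fin M, q (pairs (lab n N (word s) r) (lab n N (word s') r') (k * N + i)) ≤
        (mm n N (word s) (word s') k i + 10 / ((n : ℝ) - 1)) + (if r = r' then 1 else 0) := by
      intro r r'
      by_cases hrr : r = r'
      · rw [if_pos hrr]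
        have := q_le_one (pairs (lab n N (word s) r) (lab n N (word s') r') (k * N + i))
        linarith
      · rw [if_neg hrr, add_zero]
        exact q_pairs_le hN hn (word s) (word s') hM r.2 r'.2 (fun h => hrr (Fin.ext h)) k hi hT
    calc _ ≤ ∑ r : Fin M, ∑ r' : Fin M, (M : ℝ≥0∞)⁻¹ * (M : ℝ≥0∞)⁻¹ *
          ENNReal.ofReal ((mm n N (word s) (word s') k i + 10 / ((n : ℝ) - 1)) +
            (if r = r' then 1 else 0)) := by
          refine sum_le_sum fun r _ => sum_le_sum fun r' _ => ?_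
          gcongr
          exact h1 r r'
      _ = ∑ r : Fin M, ∑ r' : Fin M, ENNReal.ofReal ((M : ℝ)⁻¹ * (M : ℝ)⁻¹ *
          ((mm n N (word s) (word s') k i + 10 / ((n : ℝ) - 1)) + (if r = r' then 1 else 0))) := by
          refine sum_congr rfl fun r _ => sum_congr rfl fun r' _ => ?_
          rw [hMinv, ← ENNReal.ofReal_mul (by positivity), ← ENNReal.ofReal_mul (by positivity)]
      _ = ENNReal.ofReal (∑ r : Fin M, ∑ r' : Fin M, ((M : ℝ)⁻¹ * (M : ℝ)⁻¹ *
          ((mm n N (word s) (word s') k i + 10 / ((n : ℝ) - 1)) + (if r = r' then 1 else 0)))) := by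
          have hnn : ∀ r r' : Fin M, 0 ≤ ((M : ℝ)⁻¹ * (M : ℝ)⁻¹ *
            ((mm n N (word s) (word s') k i + 10 / ((n : ℝ) - 1)) + (if r = r' then 1 else 0))) := by
            intro r r'
            have : (0 : ℝ) ≤ (if r = r' then 1 else 0) := by split_ifs <;> norm_num
            positivity
          rw [ENNReal.ofReal_sum_of_nonneg fun r _ => sum_nonneg fun r' _ => hnn r r']
          refine sum_congr rfl fun r _ => ?_
          rw [ENNReal.ofReal_sum_of_nonneg fun r' _ => hnn r r']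
      _ = _ := by
          congr 1
          simp only [mul_add, sum_add_distrib, sum_const, card_univ, Fintype.card_fin, nsmul_eq_mul,
            mul_ite, mul_one, mul_zero, sum_ite_eq, mem_univ, if_true]
          unfold err
          field_simp
          ring
  calc _ ≤ ∑ s : Fin 9, ∑ s' : Fin 9, ((wt s : ℝ≥0∞) / 10000) * ((wt s' : ℝ≥0∞) / 10000) *
        ENNReal.ofReal (mm n N (word s) (word s') k i + err n M) := by
        refine sum_le_sum fun s _ => sum_le_sum fun s' _ => ?_
        gcongr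
        exact hinner s s'
    _ = ∑ s : Fin 9, ∑ s' : Fin 9, ENNReal.ofReal (cw s * cw s' *
        (mm n N (word s) (word s') k i + err n M)) := by
        refine sum_congr rfl fun s _ => sum_congr rfl fun s' _ => ?_
        rw [hwt, hwt, ← ENNReal.ofReal_mul (cw_nonneg s),
          ← ENNReal.ofReal_mul (mul_nonneg (cw_nonneg s) (cw_nonneg s'))]
    _ = ENNReal.ofReal (∑ s : Fin 9, ∑ s' : Fin 9, (cw s * cw s' *
        (mm n N (word s) (word s') k i + err n M))) := by
        have herr : 0 ≤ err n M := by unfold err; positivity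
        have hnn : ∀ s s' : Fin 9, 0 ≤ cw s * cw s' * (mm n N (word s) (word s') k i + err n M) := by
          intro s s'
          have := mm_nonneg hn (word s) (word s') k hi
          have h1 := cw_nonneg s
          have h2 := cw_nonneg s'
          positivity
        rw [ENNReal.ofReal_sum_of_nonneg fun s _ => sum_nonneg fun s' _ => hnn s s']
        refine sum_congr rfl fun s _ => ?_
        rw [ENNReal.ofReal_sum_of_nonneg fun s' _ => hnn s s']
    _ = _ := by
        congr 1
        unfold SS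
        simp only [mul_add, sum_add_distrib]
        congr 1
        simp only [← sum_mul, ← mul_sum, sum_cw, mul_one, one_mul]

end Pool.Agent.W972.AW
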