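import Pool.Agent.W972.AW.Lim2

namespace Pool.Agent.W972.AW

open Finset Filter Topology MeasureTheory
open scoped ENNReal NNReal

/-- sixteen times the constant part of the cost of a half-block, at `ν = 1/2` -/
def al (w v : Word) (k : ℕ) : ℤ :=
  if tt w v k then 4 * (2 - na w v k) * (2 - na v w k)
  else if newb w v k then (2 - na v w k) * (3 - 2 * na w v k)
  else if newb v w k then (2 - na w v k) * (3 - 2 * na v w k)
  else 2 * (2 - na w v k) * (2 - na v w k)

/-- sixteen times the linear part -/
def be (w v : Word) (k : ℕ) : ℤ :=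
  if tt w v k then -(4 * (2 - na w v k) * (2 - na v w k)) else 0

theorem ck_half (w v : Word) (k : ℕ) (R : ℝ) :
    ck w v k R (1 / 2) = ((al w v k : ℝ) * R ^ cnt (tt w v) k + (be w v k : ℝ) * R ^ (cnt (tt w v) k + 1)) / 16 := by
  unfold ck al be
  split_ifs <;> push_cast <;> ring

theorem cnt_le (P : ℕ → Bool) (k : ℕ) : cnt P k ≤ k := by
  induction k with
  | zero => simp [cnt]
  | succ k ih => rw [cnt]; split_ifs <;> omega

/-- coefficients of `AA` -/
def coefA (j : ℕ) : ℤ :=
  ∑ s : Fin 9, ∑ s' : Fin 9, ∑ k ∈ range 6, (wt s : ℤ) * wt s' *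
    ((if j = cnt (tt (word s) (word s')) k then al (word s) (word s') k else 0) +
      (if j = cnt (tt (word s) (word s')) k + 1 then be (word s) (word s') k else 0))

/-- coefficients of `BB` -/
def coefB (j : ℕ) : ℤ :=
  ∑ s : Fin 9, ∑ s' : Fin 9, (wt s : ℤ) * wt s' *
    (if j = cnt (tt (word s) (word s')) 6 then
      (2 - (na (word s) (word s') 6 : ℤ)) * (2 - (na (word s') (word s) 6 : ℤ)) else 0)

theorem AA_half (R : ℝ) : AA R (1 / 2) = (∑ j ∈ range 8, (coefA j : ℝ) * R ^ j) / 1600000000 := by
  unfold AA coefA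
  have h : ∀ s s' : Fin 9, ∀ k ∈ range 6, cw s * cw s' * ck (word s) (word s') k R (1 / 2) =
      ∑ j ∈ range 8, (((wt s : ℤ) * wt s' *
    ((if j = cnt (tt (word s) (word s')) k then al (word s) (word s') k else 0) +
      (if j = cnt (tt (word s) (word s')) k + 1 then be (word s) (word s') k else 0)) : ℤ) : ℝ) * R ^ j
        / 1600000000 := by
    intro s s' k hk
    rw [mem_range] at hk
    have hc := cnt_le (tt (word s) (word s')) k
    rw [ck_half]
    generalize cnt (tt (word s) (word s')) k = c at hc ⊢
    push_cast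
    have e : ∀ j ∈ range 8, (wt s : ℝ) * wt s' *
        ((if j = c then (al (word s) (word s') k : ℝ) else 0) +
          (if j = c + 1 then (be (word s) (word s') k : ℝ) else 0)) * R ^ j / 1600000000 =
        (if j = c then (wt s : ℝ) * wt s' * al (word s) (word s') k * R ^ j / 1600000000 else 0) +
        (if j = c + 1 then (wt s : ℝ) * wt s' * be (word s) (word s') k * R ^ j / 1600000000 else 0) := by
      intro j _
      split_ifs <;> ring
    rw [sum_congr rfl e, sum_add_distrib, sum_ite_eq', sum_ite_eq', if_pos (by rw [mem_range]; omega),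
      if_pos (by rw [mem_range]; omega)]
    unfold cw
    ring
  have h2 : ∑ s : Fin 9, ∑ s' : Fin 9, cw s * cw s' * ∑ k ∈ range 6, ck (word s) (word s') k R (1 / 2) =
      ∑ s : Fin 9, ∑ s' : Fin 9, ∑ k ∈ range 6, ∑ j ∈ range 8, (((wt s : ℤ) * wt s' *
    ((if j = cnt (tt (word s) (word s')) k then al (word s) (word s') k else 0) +
      (if j = cnt (tt (word s) (word s')) k + 1 then be (word s) (word s') k else 0)) : ℤ) : ℝ) * R ^ j
        / 1600000000 := by
    refine sum_congr rfl fun s _ => sum_congr rfl fun s' _ => ?_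
    rw [mul_sum]
    exact sum_congr rfl fun k hk => h s s' k hk
  rw [h2]
  push_cast
  simp only [sum_mul, sum_div]
  symm
  rw [sum_comm]
  refine sum_congr rfl fun s _ => ?_
  rw [sum_comm]
  refine sum_congr rfl fun s' _ => ?_
  rw [sum_comm]

theorem BB_half (R : ℝ) : BB R (1 / 2) = (∑ j ∈ range 7, (coefB j : ℝ) * R ^ j) / 400000000 := by
  unfold BB coefB
  have h : ∀ s s' : Fin 9, cw s * cw s' * (R ^ cnt (tt (word s) (word s')) 6 *
    ((1 - na (word s) (word s') 6 * (1 / 2)) * (1 - na (word s') (word s) 6 * (1 / 2)))) =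
      ∑ j ∈ range 7, (((wt s : ℤ) * wt s' *
    (if j = cnt (tt (word s) (word s')) 6 then
      (2 - (na (word s) (word s') 6 : ℤ)) * (2 - (na (word s') (word s) 6 : ℤ)) else 0) : ℤ) : ℝ) * R ^ j
        / 400000000 := by
    intro s s'
    have hc := cnt_le (tt (word s) (word s')) 6
    generalize cnt (tt (word s) (word s')) 6 = c at hc ⊢
    push_cast
    have e : ∀ j ∈ range 7, (wt s : ℝ) * wt s' *
        ((if j = c then (2 - (na (word s) (word s') 6 : ℝ)) * (2 - na (word s') (word s) 6) else 0)) *
          R ^ j / 400000000 =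
        (if j = c then (wt s : ℝ) * wt s' * ((2 - (na (word s) (word s') 6 : ℝ)) *
          (2 - na (word s') (word s) 6)) * R ^ j / 400000000 else 0) := by
      intro j _
      split_ifs <;> ring
    rw [sum_congr rfl e, sum_ite_eq', if_pos (by rw [mem_range]; omega)]
    unfold cw
    ring
  rw [sum_congr rfl fun s _ => sum_congr rfl fun s' _ => h s s']
  push_cast
  simp only [sum_mul, sum_div]
  symm
  rw [sum_comm]
  refine sum_congr rfl fun s _ => ?_
  rw [sum_comm]

theorem coefA_0 : coefA 0 = 1393313960 := by decide +kernel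
theorem coefA_1 : coefA 1 = -14320600 := by decide +kernel
theorem coefA_2 : coefA 2 = -131779792 := by decide +kernel
theorem coefA_3 : coefA 3 = -313600 := by decide +kernel
theorem coefA_4 : coefA 4 = -157250896 := by decide +kernel
theorem coefA_5 : coefA 5 = 0 := by decide +kernel
theorem coefA_6 : coefA 6 = -290089024 := by decide +kernel
theorem coefA_7 : coefA 7 = 0 := by decide +kernel
theorem coefB_0 : coefB 0 = 87616 := by decide +kernel
theorem coefB_1 : coefB 1 = 108640 := by decide +kernel
theorem coefB_2 : coefB 2 = 2168964 := by decide +kernel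
theorem coefB_3 : coefB 3 = 78400 := by decide +kernel
theorem coefB_4 : coefB 4 = 23307924 := by decide +kernel
theorem coefB_5 : coefB 5 = 0 := by decide +kernel
theorem coefB_6 : coefB 6 = 72522256 := by decide +kernel

end Pool.Agent.W972.AW
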