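import Pool.Agent.W972.AW.Switch
import Pool.Agent.W972.AW.Block

namespace Pool.Agent.W972.AW

open Finset
open scoped ENNReal NNReal

variable {n : ℕ}

/-- the pairs forbidden during the first `T` steps -/
def pairs (u v : ℕ → Fin n) (T : ℕ) : Finset (Fin n × Fin n) := (range T).image fun t => (v t, u t)

theorem relabel_count (u v : ℕ → Fin n) (π : Equiv.Perm (Fin n)) (T : ℕ) :
    (∑ ρ : Equiv.Perm (Fin n), ∑ ρ' : Equiv.Perm (Fin n),
      (if ∀ t < T, ρ (u t) ≠ π (ρ' (v t)) then (1 : ℝ≥0∞) else 0)) =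
      (n.factorial : ℝ≥0∞) * ((avoid (pairs u v T)).card : ℝ≥0∞) := by
  have h : ∀ ρ : Equiv.Perm (Fin n), (∑ ρ' : Equiv.Perm (Fin n),
      (if ∀ t < T, ρ (u t) ≠ π (ρ' (v t)) then (1 : ℝ≥0∞) else 0)) =
      ((avoid (pairs u v T)).card : ℝ≥0∞) := by
    intro ρ
    rw [← Equiv.sum_comp (Equiv.mulLeft (π⁻¹ * ρ))]
    rw [sum_boole]
    congr 1
    unfold avoid
    congr 1
    ext σ
    simp only [mem_filter, mem_univ, true_and, pairs, mem_image, mem_range, Equiv.coe_mulLeft]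
    constructor
    · rintro h p ⟨t, ht, rfl⟩
      have := h t ht
      intro h2
      apply this
      simp only at h2
      simp [Equiv.Perm.mul_apply, h2]
    · intro h t ht h2
      have := h (v t, u t) ⟨t, ht, rfl⟩
      apply this
      simp only
      simp only [Equiv.Perm.mul_apply] at h2
      have h3 : π (π⁻¹ (ρ (σ (v t)))) = ρ (σ (v t)) := by simp
      rw [h3] at h2
      exact (ρ.injective h2).symm
  rw [sum_congr rfl fun ρ _ => h ρ, sum_const, card_univ, Fintype.card_perm, Fintype.card_fin,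
    nsmul_eq_mul]

theorem factorial_ne_zero' : (n.factorial : ℝ≥0∞) ≠ 0 := by
  exact_mod_cast n.factorial_ne_zero

theorem factorial_ne_top' : (n.factorial : ℝ≥0∞) ≠ ⊤ := ENNReal.natCast_ne_top _

/-- normalised form of `relabel_count` -/
theorem relabel_prob (u v : ℕ → Fin n) (π : Equiv.Perm (Fin n)) (T : ℕ) :
    (∑ ρ : Equiv.Perm (Fin n), ∑ ρ' : Equiv.Perm (Fin n),
      (n.factorial : ℝ≥0∞)⁻¹ * ((n.factorial : ℝ≥0∞)⁻¹ *
      (if ∀ t < T, ρ (u t) ≠ π (ρ' (v t)) then (1 : ℝ≥0∞) else 0))) =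
      ENNReal.ofReal (q (pairs u v T)) := by
  simp only [← mul_sum]
  rw [relabel_count, q, ENNReal.ofReal_div_of_pos (by positivity)]
  rw [← mul_assoc (n.factorial : ℝ≥0∞)⁻¹ (n.factorial : ℝ≥0∞),
    ENNReal.inv_mul_cancel factorial_ne_zero' factorial_ne_top', one_mul]
  rw [ENNReal.ofReal_natCast, ENNReal.ofReal_natCast, mul_comm, ENNReal.div_eq_inv_mul, mul_comm]

end Pool.Agent.W972.AW
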