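import Pool.Agent.W972.AW.New

namespace Pool.Agent.W972.AW

open Finset Filter Topology MeasureTheory
open scoped ENNReal NNReal

variable {n : ℕ}

/-- cost of one half-block divided by `n` -/
noncomputable def ck (w v : Word) (k : ℕ) (R ν : ℝ) : ℝ :=
  R ^ cnt (tt w v) k *
    (if tt w v k then (1 - na w v k * ν) * (1 - na v w k * ν) * (1 - R)
     else if newb w v k then (1 - na v w k * ν) * (ν - na w v k * ν ^ 2 - ν ^ 2 / 2)
     else if newb v w k then (1 - na w v k * ν) * (ν - na v w k * ν ^ 2 - ν ^ 2 / 2)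
     else (1 - na w v k * ν) * (1 - na v w k * ν) * ν)

theorem newb_cases (w v : Word) (k : ℕ) : 
    (tt w v k = true ∧ newb w v k = false ∧ newb v w k = false) ∨
    (tt w v k = false ∧ newb w v k = true ∧ newb v w k = false) ∨
    (tt w v k = false ∧ newb w v k = false ∧ newb v w k = true) ∨
    (tt w v k = false ∧ newb w v k = false ∧ newb v w k = false) := by
  unfold tt newb
  cases w k <;> cases v k <;> simp [Bool.eq_false_or_eq_true] <;>
    (rename_i c; cases cov _ _ c k <;> simp)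

theorem geomN {N : ℕ} (hn : 1 ≤ n) :
    ∑ i ∈ range N, (1 - 1 / (n : ℝ)) ^ i = n * (1 - (1 - 1 / (n : ℝ)) ^ N) := by
  have hn' : (0 : ℝ) < n := by exact_mod_cast hn
  have h := mul_neg_geom_sum (1 - 1 / (n : ℝ)) N
  have h2 : 1 - (1 - 1 / (n : ℝ)) = 1 / n := by ring
  rw [h2] at h
  rw [← h]
  field_simp

theorem sumlinN {N : ℕ} (hn : 1 ≤ n) (a : ℝ) :
    ∑ i ∈ range N, (1 - (a * N + i) / (n : ℝ)) =
      n * ((N : ℝ) / n - a * ((N : ℝ) / n) ^ 2 - ((N : ℝ) / n) ^ 2 / 2) + (N : ℝ) / n / 2 := by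
  have hn' : (0 : ℝ) < n := by exact_mod_cast hn
  have h : ∀ m : ℕ, ∑ i ∈ range m, (1 - (a * N + i) / (n : ℝ)) =
      m * (1 - a * N / n) - m * (m - 1) / 2 / n := by
    intro m
    induction m with
    | zero => simp
    | succ m ih =>
      rw [sum_range_succ, ih]
      push_cast
      field_simp
      ring
  rw [h]
  field_simp
  ring

theorem sum_mm_le {N : ℕ} (hn : 2 * N + 1 ≤ n) (w v : Word) (k : ℕ) :
    ∑ i ∈ range N, mm n N w v k i ≤
      n * ck w v k ((1 - 1 / (n : ℝ)) ^ N) ((N : ℝ) / n) + 1 := by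
  have hn1 : 1 ≤ n := by omega
  have hn' : (1 : ℝ) ≤ n := by exact_mod_cast hn1
  set R := (1 - 1 / (n : ℝ)) ^ N with hR
  set ν := (N : ℝ) / n with hν
  have hρ0 : 0 ≤ 1 - 1 / (n : ℝ) := by
    rw [sub_nonneg, div_le_one (by linarith)]; linarith
  have hρ1 : 1 - 1 / (n : ℝ) ≤ 1 := by
    have : 0 ≤ 1 / (n : ℝ) := by positivity
    linarith
  have hR0 : 0 ≤ R := pow_nonneg hρ0 _
  have hR1 : R ≤ 1 := pow_le_one₀ hρ0 hρ1
  have hν0 : 0 ≤ ν := by positivity
  have hν1 : ν ≤ 1 := by
    rw [hν, div_le_one (by linarith)]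
    exact_mod_cast (show N ≤ n by omega)
  have hc : ∀ x : ℕ, ((x * N : ℕ) : ℝ) / n = x * ν := by
    intro x; rw [hν]; push_cast; ring
  have hRk : ∀ c : ℕ, (1 - 1 / (n : ℝ)) ^ (N * c) = R ^ c := by
    intro c; rw [hR, pow_mul]
  have hRc : 0 ≤ R ^ cnt (tt w v) k := pow_nonneg hR0 _
  have hRc1 : R ^ cnt (tt w v) k ≤ 1 := pow_le_one₀ hR0 hR1
  have fa := frac_nonneg hn w v k (Nat.zero_le N)
  have fb := frac_nonneg hn v w k (Nat.zero_le N)
  simp only [ite_self, add_zero, hc] at fa fb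
  have fa1 : 1 - (na w v k : ℝ) * ν ≤ 1 := by
    have : 0 ≤ (na w v k : ℝ) * ν := by positivity
    linarith
  have fb1 : 1 - (na v w k : ℝ) * ν ≤ 1 := by
    have : 0 ≤ (na v w k : ℝ) * ν := by positivity
    linarith
  rcases newb_cases w v k with ⟨h1, h2, h3⟩ | ⟨h1, h2, h3⟩ | ⟨h1, h2, h3⟩ | ⟨h1, h2, h3⟩
  · have e : ∀ i, mm n N w v k i = R ^ cnt (tt w v) k *
        ((1 - na w v k * ν) * (1 - na v w k * ν)) * (1 - 1 / (n : ℝ)) ^ i := by
      intro i
      unfold mm
      simp only [h1, h2, h3, if_true, Bool.false_eq_true, if_false, add_zero, hc]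
      rw [pow_add, hRk]
      ring
    rw [sum_congr rfl fun i _ => e i, ← mul_sum, geomN hn1]
    unfold ck
    simp only [h1, if_true]
    rw [← hR]
    nlinarith
  · have e : ∀ i, mm n N w v k i = R ^ cnt (tt w v) k * (1 - na v w k * ν) *
        (1 - ((na w v k : ℝ) * N + i) / n) := by
      intro i
      unfold mm
      simp only [h1, h2, h3, if_true, Bool.false_eq_true, if_false, add_zero, hc]
      rw [hRk]
      push_cast
      ring
    rw [sum_congr rfl fun i _ => e i, ← mul_sum, sumlinN hn1]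
    unfold ck
    simp only [h1, h2, if_true, Bool.false_eq_true, if_false]
    rw [← hν]
    have h4 : R ^ cnt (tt w v) k * (1 - na v w k * ν) * (ν / 2) ≤ 1 := by
      have : R ^ cnt (tt w v) k * (1 - na v w k * ν) ≤ 1 := mul_le_one₀ hRc1 fb fb1
      have h5 : 0 ≤ R ^ cnt (tt w v) k * (1 - na v w k * ν) := mul_nonneg hRc fb
      nlinarith
    nlinarith
  · have e : ∀ i, mm n N w v k i = R ^ cnt (tt w v) k * (1 - na w v k * ν) *
        (1 - ((na v w k : ℝ) * N + i) / n) := by
      intro i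
      unfold mm
      simp only [h1, h2, h3, if_true, Bool.false_eq_true, if_false, add_zero, hc]
      rw [hRk]
      push_cast
      ring
    rw [sum_congr rfl fun i _ => e i, ← mul_sum, sumlinN hn1]
    unfold ck
    simp only [h1, h2, h3, if_true, Bool.false_eq_true, if_false]
    rw [← hν]
    have h4 : R ^ cnt (tt w v) k * (1 - na w v k * ν) * (ν / 2) ≤ 1 := by
      have : R ^ cnt (tt w v) k * (1 - na w v k * ν) ≤ 1 := mul_le_one₀ hRc1 fa fa1
      have h5 : 0 ≤ R ^ cnt (tt w v) k * (1 - na w v k * ν) := mul_nonneg hRc fa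
      nlinarith
    nlinarith
  · have e : ∀ i, mm n N w v k i = R ^ cnt (tt w v) k * ((1 - na w v k * ν) * (1 - na v w k * ν)) := by
      intro i
      unfold mm
      simp only [h1, h2, h3, Bool.false_eq_true, if_false, add_zero, hc]
      rw [hRk]
    rw [sum_congr rfl fun i _ => e i, sum_const, card_range, nsmul_eq_mul]
    unfold ck
    simp only [h1, h2, h3, Bool.false_eq_true, if_false]
    have : (N : ℝ) = n * ν := by rw [hν]; field_simp
    rw [this]
    nlinarith

/-- expected length of a block divided by `n` -/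
noncomputable def AA (R ν : ℝ) : ℝ :=
  ∑ s : Fin 9, ∑ s' : Fin 9, cw s * cw s' * ∑ k ∈ range 6, ck (word s) (word s') k R ν

/-- survival of a whole block -/
noncomputable def BB (R ν : ℝ) : ℝ :=
  ∑ s : Fin 9, ∑ s' : Fin 9, cw s * cw s' * (R ^ cnt (tt (word s) (word s')) 6 *
    ((1 - na (word s) (word s') 6 * ν) * (1 - na (word s') (word s) 6 * ν)))

theorem sum_SS_le {N : ℕ} (hn : 2 * N + 1 ≤ n) :
    ∑ k ∈ range 6, ∑ i ∈ range N, SS n N k i ≤
      n * AA ((1 - 1 / (n : ℝ)) ^ N) ((N : ℝ) / n) + 6 := by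
  unfold SS AA
  have h1 : ∑ k ∈ range 6, ∑ i ∈ range N, ∑ s : Fin 9, ∑ s' : Fin 9,
      cw s * cw s' * mm n N (word s) (word s') k i =
      ∑ s : Fin 9, ∑ s' : Fin 9, cw s * cw s' * ∑ k ∈ range 6, ∑ i ∈ range N,
        mm n N (word s) (word s') k i := by
    calc _ = ∑ k ∈ range 6, ∑ s : Fin 9, ∑ i ∈ range N, ∑ s' : Fin 9,
          cw s * cw s' * mm n N (word s) (word s') k i := sum_congr rfl fun k _ => sum_comm
      _ = ∑ k ∈ range 6, ∑ s : Fin 9, ∑ s' : Fin 9, ∑ i ∈ range N,
          cw s * cw s' * mm n N (word s) (word s') k i :=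
          sum_congr rfl fun k _ => sum_congr rfl fun s _ => sum_comm
      _ = ∑ s : Fin 9, ∑ k ∈ range 6, ∑ s' : Fin 9, ∑ i ∈ range N,
          cw s * cw s' * mm n N (word s) (word s') k i := sum_comm
      _ = ∑ s : Fin 9, ∑ s' : Fin 9, ∑ k ∈ range 6, ∑ i ∈ range N,
          cw s * cw s' * mm n N (word s) (word s') k i := sum_congr rfl fun s _ => sum_comm
      _ = _ := by simp only [mul_sum]
  rw [h1]
  have h2 : ∀ s s' : Fin 9, cw s * cw s' * ∑ k ∈ range 6, ∑ i ∈ range N,
        mm n N (word s) (word s') k i ≤ cw s * cw s' * (n * ∑ k ∈ range 6,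
          ck (word s) (word s') k ((1 - 1 / (n : ℝ)) ^ N) ((N : ℝ) / n) + 6) := by
    intro s s'
    apply mul_le_mul_of_nonneg_left _ (mul_nonneg (cw_nonneg s) (cw_nonneg s'))
    calc ∑ k ∈ range 6, ∑ i ∈ range N, mm n N (word s) (word s') k i
        ≤ ∑ k ∈ range 6, (n * ck (word s) (word s') k ((1 - 1 / (n : ℝ)) ^ N) ((N : ℝ) / n) + 1) :=
          sum_le_sum fun k _ => sum_mm_le hn _ _ k
      _ = _ := by
          rw [sum_add_distrib, ← mul_sum]; simp
  refine (sum_le_sum fun s _ => sum_le_sum fun s' _ => h2 s s').trans ?_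
  apply le_of_eq
  simp only [mul_add, sum_add_distrib]
  congr 1
  · simp only [mul_sum]
    refine sum_congr rfl fun s _ => sum_congr rfl fun s' _ => sum_congr rfl fun k _ => ?_
    ring
  · simp only [← sum_mul, ← mul_sum, sum_cw]
    norm_num

theorem SS_last {N : ℕ} :
    SS n N 6 0 = BB ((1 - 1 / (n : ℝ)) ^ N) ((N : ℝ) / n) := by
  unfold SS BB mm
  refine sum_congr rfl fun s _ => sum_congr rfl fun s' _ => ?_
  simp only [ite_self, add_zero, pow_mul]
  push_cast
  ring

theorem sum_range_mul {N : ℕ} (f : ℕ → ℝ≥0∞) :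
    ∑ T ∈ range (6 * N), f T = ∑ k ∈ range 6, ∑ i ∈ range N, f (k * N + i) := by
  have : ∀ m : ℕ, ∑ T ∈ range (m * N), f T = ∑ k ∈ range m, ∑ i ∈ range N, f (k * N + i) := by
    intro m
    induction m with
    | zero => simp
    | succ m ih =>
      have h : (m + 1) * N = m * N + N := by ring
      rw [h, sum_range_add, ih, sum_range_succ _ m]
  exact this 6

theorem SS_nonneg {N : ℕ} (hn : 2 * N + 1 ≤ n) (k : ℕ) {i : ℕ} (hi : i ≤ N) : 0 ≤ SS n N k i := by
  unfold SS
  refine sum_nonneg fun s _ => sum_nonneg fun s' _ => ?_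
  have := mm_nonneg hn (word s) (word s') k hi
  have h1 := cw_nonneg s
  have h2 := cw_nonneg s'
  positivity

/-- The expected meeting time of the new strategy. -/
theorem mean_new_le [NeZero n] {N M : ℕ} (hN : 0 < N) (hn : 2 * N + 1 ≤ n) (hM0 : 0 < M)
    (hM : 6 * M ≤ N) 
    (hpos : 0 < 1 - BB ((1 - 1 / (n : ℝ)) ^ N) ((N : ℝ) / n) - err n M) :
    meanTime (newStrategy n N M hM0) ≤ ENNReal.ofReal
      ((n * AA ((1 - 1 / (n : ℝ)) ^ N) ((N : ℝ) / n) + 6 + 6 * N * err n M) /
        (1 - BB ((1 - 1 / (n : ℝ)) ^ N) ((N : ℝ) / n) - err n M)) := by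
  have hnr : (3 : ℝ) ≤ n := by exact_mod_cast (show 3 ≤ n by omega)
  have hMr : (0 : ℝ) < M := by exact_mod_cast hM0
  have herr : 0 ≤ err n M := by
    unfold err
    have : 0 ≤ 10 / ((n : ℝ) - 1) := by
      apply div_nonneg (by norm_num); linarith
    positivity
  have h0 : meanTime (newStrategy n N M hM0) = (∑ π : Equiv.Perm (Fin n),
      (∑ T ∈ range (6 * N), surv (newChoice n M hM0) (newPlay n N M) π T) *
        (1 - surv (newChoice n M hM0) (newPlay n N M) π (6 * N))⁻¹) / (n.factorial : ℝ≥0∞) := by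
    unfold meanTime newStrategy
    congr 1
    refine sum_congr rfl fun π _ => ?_
    haveI : Nonempty (Fin M) := ⟨⟨0, hM0⟩⟩
    exact mean_block _ _ _ (by omega)
  rw [h0]
  apply ENNReal.div_le_of_le_mul
  have hper : ∀ π ∈ (univ : Finset (Equiv.Perm (Fin n))),
      (∑ T ∈ range (6 * N), surv (newChoice n M hM0) (newPlay n N M) π T) *
        (1 - surv (newChoice n M hM0) (newPlay n N M) π (6 * N))⁻¹ ≤
      ENNReal.ofReal
      ((n * AA ((1 - 1 / (n : ℝ)) ^ N) ((N : ℝ) / n) + 6 + 6 * N * err n M) /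
        (1 - BB ((1 - 1 / (n : ℝ)) ^ N) ((N : ℝ) / n) - err n M)) := by
    intro π _
    rw [ENNReal.ofReal_div_of_pos hpos, div_eq_mul_inv]
    apply mul_le_mul'
    · rw [sum_range_mul]
      calc _ ≤ ∑ k ∈ range 6, ∑ i ∈ range N, ENNReal.ofReal (SS n N k i + err n M) := by
            refine sum_le_sum fun k hk => sum_le_sum fun i hi => ?_
            rw [mem_range] at hk hi
            refine surv_new_le hN hn hM0 hM π k hi.le ?_
            have : (k + 1) * N ≤ 6 * N := Nat.mul_le_mul_right N (by omega)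
            have h3 : (k + 1) * N = k * N + N := by ring
            omega
        _ = ENNReal.ofReal (∑ k ∈ range 6, ∑ i ∈ range N, (SS n N k i + err n M)) := by
            have hnn : ∀ k, ∀ i ∈ range N, 0 ≤ SS n N k i + err n M := by
              intro k i hi
              rw [mem_range] at hi
              have := SS_nonneg hn k hi.le
              linarith
            rw [ENNReal.ofReal_sum_of_nonneg fun k _ => sum_nonneg fun i hi => hnn k i hi]
            refine sum_congr rfl fun k _ => ?_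
            rw [ENNReal.ofReal_sum_of_nonneg fun i hi => hnn k i hi]
        _ ≤ _ := by
            apply ENNReal.ofReal_le_ofReal
            have := sum_SS_le (n := n) hn
            simp only [sum_add_distrib, sum_const, card_range, nsmul_eq_mul]
            push_cast
            linarith
    · rw [ENNReal.inv_le_inv]
      have hB : SS n N 6 0 + err n M ≤ 1 := by rw [SS_last]; linarith
      have hl := surv_new_le hN hn hM0 hM π 6 (Nat.zero_le N) (by omega)
      rw [add_zero, SS_last] at hl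
      have hB0 : 0 ≤ BB ((1 - 1 / (n : ℝ)) ^ N) ((N : ℝ) / n) + err n M := by
        rw [← SS_last]
        have := SS_nonneg hn 6 (Nat.zero_le N)
        linarith
      calc ENNReal.ofReal (1 - BB ((1 - 1 / (n : ℝ)) ^ N) ((N : ℝ) / n) - err n M)
          = 1 - ENNReal.ofReal (BB ((1 - 1 / (n : ℝ)) ^ N) ((N : ℝ) / n) + err n M) := by
            rw [sub_sub, ENNReal.ofReal_sub _ hB0]; simp
        _ ≤ _ := tsub_le_tsub_left hl _
  refine (sum_le_sum hper).trans ?_
  rw [sum_const, card_univ, Fintype.card_perm, Fintype.card_fin, nsmul_eq_mul, mul_comm]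

theorem continuous_ck (w v : Word) (k : ℕ) : Continuous fun p : ℝ × ℝ => ck w v k p.1 p.2 := by
  unfold ck
  split_ifs <;> fun_prop

theorem continuous_AA : Continuous fun p : ℝ × ℝ => AA p.1 p.2 := by
  unfold AA
  refine continuous_finsetSum _ fun s _ => continuous_finsetSum _ fun s' _ => ?_
  refine continuous_const.mul ?_
  exact continuous_finsetSum _ fun k _ => continuous_ck _ _ k

theorem continuous_BB : Continuous fun p : ℝ × ℝ => BB p.1 p.2 := by
  unfold BB
  refine continuous_finsetSum _ fun s _ => continuous_finsetSum _ fun s' _ => ?_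
  fun_prop

end Pool.Agent.W972.AW
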