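import Pool.Agent.W972.AW.Defs

namespace Pool.Agent.W972.AW

open Finset

variable {n : ℕ}

/-- The permutations which avoid the set `G` of pairs. -/
def avoid (G : Finset (Fin n × Fin n)) : Finset (Equiv.Perm (Fin n)) :=
  univ.filter fun σ => ∀ p ∈ G, σ p.1 ≠ p.2

theorem mem_avoid {G : Finset (Fin n × Fin n)} {σ : Equiv.Perm (Fin n)} :
    σ ∈ avoid G ↔ ∀ p ∈ G, σ p.1 ≠ p.2 := by simp [avoid]

theorem avoid_anti {G H : Finset (Fin n × Fin n)} (h : G ⊆ H) : avoid H ⊆ avoid G := by
  intro σ hσ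
  rw [mem_avoid] at hσ ⊢
  exact fun p hp => hσ p (h hp)

/-- probability that a uniform permutation avoids `G` -/
noncomputable def q (G : Finset (Fin n × Fin n)) : ℝ := ((avoid G).card : ℝ) / (n.factorial : ℝ)

theorem q_anti {G H : Finset (Fin n × Fin n)} (h : G ⊆ H) : q H ≤ q G := by
  unfold q
  gcongr
  exact avoid_anti h

theorem q_nonneg (G : Finset (Fin n × Fin n)) : 0 ≤ q G := by unfold q; positivity

theorem q_empty : q (∅ : Finset (Fin n × Fin n)) = 1 := by
  unfold q avoid
  simp only [notMem_empty, ne_eq, IsEmpty.forall_iff, implies_true, filter_true]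
  rw [card_univ, Fintype.card_perm, Fintype.card_fin]
  exact div_self (by positivity)

theorem q_le_one (G : Finset (Fin n × Fin n)) : q G ≤ 1 := by
  rw [← q_empty (n := n)]; exact q_anti (empty_subset _)

/-- a permutation moving two points to prescribed points -/
theorem exists_perm_two {x b p r : Fin n} (h1 : x ≠ b) (h2 : p ≠ r) :
    ∃ τ : Equiv.Perm (Fin n), τ x = p ∧ τ b = r := by
  refine ⟨Equiv.swap (Equiv.swap x p b) r * Equiv.swap x p, ?_, ?_⟩
  · simp only [Equiv.Perm.mul_apply, Equiv.swap_apply_left]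
    apply Equiv.swap_apply_of_ne_of_ne _ h2
    intro h
    have : Equiv.swap x p x = Equiv.swap x p b := by rw [Equiv.swap_apply_left]; exact h
    exact h1 ((Equiv.swap x p).injective this)
  · simp

theorem card_two {a y x b : Fin n} (h1 : a ≠ y) (h2 : x ≠ b) :
    (univ.filter fun σ : Equiv.Perm (Fin n) => σ a = x ∧ σ y = b).card * (n * (n - 1)) =
      n.factorial := by
  set c := (univ.filter fun σ : Equiv.Perm (Fin n) => σ a = x ∧ σ y = b).card with hc
  have hconst : ∀ pr ∈ (univ : Finset (Fin n)).offDiag,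
      (univ.filter fun σ : Equiv.Perm (Fin n) => (σ a, σ y) = pr).card = c := by
    rintro ⟨p, r⟩ hpr
    rw [mem_offDiag] at hpr
    obtain ⟨τ, hτ1, hτ2⟩ := exists_perm_two h2 hpr.2.2
    simp only at hτ1 hτ2
    rw [hc]
    symm
    refine card_bij (fun σ _ => τ * σ) ?_ ?_ ?_
    · intro σ hσ
      rw [mem_filter] at hσ ⊢
      refine ⟨mem_univ _, ?_⟩
      simp [Equiv.Perm.mul_apply, hσ.2.1, hσ.2.2, hτ1, hτ2]
    · intro σ _ σ' _ h
      exact mul_left_cancel h
    · intro σ hσ
      rw [mem_filter] at hσ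
      have h3 := hσ.2
      rw [Prod.mk.injEq] at h3
      refine ⟨τ⁻¹ * σ, ?_, by group⟩
      rw [mem_filter]
      refine ⟨mem_univ _, ?_, ?_⟩
      · rw [Equiv.Perm.mul_apply, h3.1, ← hτ1]; simp
      · rw [Equiv.Perm.mul_apply, h3.2, ← hτ2]; simp
  have hmaps : ∀ σ ∈ (univ : Finset (Equiv.Perm (Fin n))), (σ a, σ y) ∈ (univ : Finset (Fin n)).offDiag := by
    intro σ _
    rw [mem_offDiag]
    exact ⟨mem_univ _, mem_univ _, fun h => h1 (σ.injective h)⟩
  have h := card_eq_sum_card_fiberwise hmaps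
  rw [sum_congr rfl hconst, sum_const, offDiag_card, card_univ, Fintype.card_perm, Fintype.card_fin,
    card_univ, Fintype.card_fin] at h
  rw [h, smul_eq_mul, mul_comm]
  congr 1
  cases n with
  | zero => rfl
  | succ m => simp; ring_nf; omega

theorem card_one (a x : Fin n) :
    (univ.filter fun σ : Equiv.Perm (Fin n) => σ a = x).card * n = n.factorial := by
  set c := (univ.filter fun σ : Equiv.Perm (Fin n) => σ a = x).card with hc
  have hconst : ∀ p ∈ (univ : Finset (Fin n)),
      (univ.filter fun σ : Equiv.Perm (Fin n) => σ a = p).card = c := by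
    intro p _
    rw [hc]
    symm
    refine card_bij (fun σ _ => Equiv.swap x p * σ) ?_ ?_ ?_
    · intro σ hσ
      rw [mem_filter] at hσ ⊢
      refine ⟨mem_univ _, ?_⟩
      simp [Equiv.Perm.mul_apply, hσ.2]
    · intro σ _ σ' _ h
      exact mul_left_cancel h
    · intro σ hσ
      rw [mem_filter] at hσ
      refine ⟨Equiv.swap x p * σ, ?_, ?_⟩
      · rw [mem_filter]
        refine ⟨mem_univ _, ?_⟩
        rw [Equiv.Perm.mul_apply, hσ.2]; simp
      · rw [← mul_assoc, Equiv.swap_mul_self, one_mul]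
  have h := card_eq_sum_card_fiberwise (f := fun σ : Equiv.Perm (Fin n) => σ a)
    (s := univ) (t := (univ : Finset (Fin n))) (fun σ _ => mem_univ _)
  rw [sum_congr rfl hconst, sum_const, card_univ, Fintype.card_perm, Fintype.card_fin,
    card_univ, Fintype.card_fin] at h
  rw [h, smul_eq_mul, mul_comm]

theorem card_two_real {a y x b : Fin n} (hn : 2 ≤ n) (h1 : a ≠ y) (h2 : x ≠ b) :
    ((univ.filter fun σ : Equiv.Perm (Fin n) => σ a = x ∧ σ y = b).card : ℝ) =
      (n.factorial : ℝ) / (n * (n - 1)) := by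
  have h := card_two h1 h2
  have hn' : (1 : ℝ) < n := by exact_mod_cast hn
  rw [eq_div_iff (by nlinarith)]
  have : ((n * (n - 1) : ℕ) : ℝ) = (n : ℝ) * (n - 1) := by
    rw [Nat.cast_mul, Nat.cast_sub (by omega)]; simp
  rw [← this]
  exact_mod_cast h

theorem card_one_real (hn : 1 ≤ n) (a x : Fin n) :
    ((univ.filter fun σ : Equiv.Perm (Fin n) => σ a = x).card : ℝ) = (n.factorial : ℝ) / n := by
  have h := card_one a x
  have hn' : (0 : ℝ) < n := by exact_mod_cast hn
  rw [eq_div_iff (by positivity)]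
  exact_mod_cast h

section switching

variable {G : Finset (Fin n × Fin n)} {y x : Fin n}

theorem avoid_insert_card :
    (avoid (insert (y, x) G)).card + ((avoid G).filter fun σ => σ y = x).card = (avoid G).card := by
  have : avoid (insert (y, x) G) = (avoid G).filter fun σ => ¬ σ y = x := by
    ext σ
    simp only [mem_filter, mem_avoid, mem_insert, forall_eq_or_imp]
    tauto
  rw [this, add_comm]
  exact card_filter_add_card_filter_not _

/-- the number of bad permutations for the switching -/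
theorem bad_card (hn : 2 ≤ n) (he : (y, x) ∉ G) :
    ((univ.filter fun σ : Equiv.Perm (Fin n) => (σ⁻¹ x, σ y) ∈ G).card : ℝ) ≤
      G.card * ((n.factorial : ℝ) / (n * (n - 1))) := by
  have hsub : (univ.filter fun σ : Equiv.Perm (Fin n) => (σ⁻¹ x, σ y) ∈ G) ⊆
      G.biUnion fun p => univ.filter fun σ : Equiv.Perm (Fin n) => σ⁻¹ x = p.1 ∧ σ y = p.2 := by
    intro σ hσ
    rw [mem_filter] at hσ
    rw [mem_biUnion]
    exact ⟨_, hσ.2, by simp⟩
  have h1 := card_le_card hsub
  have h2 := card_biUnion_le (s := G)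
    (t := fun p => univ.filter fun σ : Equiv.Perm (Fin n) => σ⁻¹ x = p.1 ∧ σ y = p.2)
  have hn' : (1 : ℝ) < n := by exact_mod_cast hn
  have hpos : 0 ≤ (n.factorial : ℝ) / (n * (n - 1)) := by
    apply div_nonneg (by positivity)
    nlinarith
  have h3 : ∀ p ∈ G, ((univ.filter fun σ : Equiv.Perm (Fin n) => σ⁻¹ x = p.1 ∧ σ y = p.2).card : ℝ) ≤
      (n.factorial : ℝ) / (n * (n - 1)) := by
    intro p hp
    by_cases hc : p.1 ≠ y ∧ x ≠ p.2
    · have : (univ.filter fun σ : Equiv.Perm (Fin n) => σ⁻¹ x = p.1 ∧ σ y = p.2) =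
          univ.filter fun σ : Equiv.Perm (Fin n) => σ p.1 = x ∧ σ y = p.2 := by
        ext σ
        simp only [mem_filter, mem_univ, true_and]
        constructor
        · rintro ⟨h, h'⟩
          exact ⟨by rw [← h]; simp, h'⟩
        · rintro ⟨h, h'⟩
          exact ⟨by rw [← h]; simp, h'⟩
      rw [this, card_two_real hn hc.1 hc.2]
    · have : (univ.filter fun σ : Equiv.Perm (Fin n) => σ⁻¹ x = p.1 ∧ σ y = p.2) = ∅ := by
        rw [filter_eq_empty_iff]
        rintro σ _ ⟨h, h'⟩
        apply he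
        have hx : σ p.1 = x := by rw [← h]; simp
        have hpe : p = (y, x) := by
          by_cases h4 : p.1 = y
          · have : p.2 = x := by rw [← h', ← h4, hx]
            exact Prod.ext h4 this
          · have h5 : x = p.2 := by
              by_contra h6
              exact hc ⟨h4, h6⟩
            exact absurd (σ.injective (by rw [hx, h', h5])) h4
        rwa [hpe] at hp
      rw [this]
      simpa using hpos
  calc ((univ.filter fun σ : Equiv.Perm (Fin n) => (σ⁻¹ x, σ y) ∈ G).card : ℝ)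
      ≤ ((∑ p ∈ G, (univ.filter fun σ : Equiv.Perm (Fin n) => σ⁻¹ x = p.1 ∧ σ y = p.2).card : ℕ) : ℝ) := by
        exact_mod_cast h1.trans h2
    _ = ∑ p ∈ G, ((univ.filter fun σ : Equiv.Perm (Fin n) => σ⁻¹ x = p.1 ∧ σ y = p.2).card : ℝ) := by
        push_cast; rfl
    _ ≤ ∑ p ∈ G, (n.factorial : ℝ) / (n * (n - 1)) := sum_le_sum h3
    _ = _ := by rw [sum_const, nsmul_eq_mul]

theorem switch_le (he : (y, x) ∉ G) :
    (avoid G).card ≤ n * ((avoid G).filter fun σ => σ y = x).card +
      (univ.filter fun σ : Equiv.Perm (Fin n) => (σ⁻¹ x, σ y) ∈ G).card := by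
  have h1 : ((avoid G).filter fun σ => (σ⁻¹ x, σ y) ∉ G).card ≤
      n * ((avoid G).filter fun σ => σ y = x).card := by
    refine card_le_mul_card_image_of_maps_to (f := fun σ => Equiv.swap x (σ y) * σ) ?_ n ?_
    · intro σ hσ
      rw [mem_filter, mem_avoid] at hσ
      rw [mem_filter, mem_avoid]
      refine ⟨?_, by simp [Equiv.Perm.mul_apply]⟩
      intro p hp
      rw [Equiv.Perm.mul_apply]
      by_cases h2 : σ p.1 = x
      · rw [h2, Equiv.swap_apply_left]
        intro h3
        apply hσ.2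
        have : σ⁻¹ x = p.1 := by rw [← h2]; simp
        rw [this, h3]; exact hp
      · by_cases h3 : σ p.1 = σ y
        · rw [h3, Equiv.swap_apply_right]
          intro h4
          have h5 : p.1 = y := σ.injective h3
          apply he
          have : p = (y, x) := Prod.ext h5 h4.symm
          rwa [← this]
        · rw [Equiv.swap_apply_of_ne_of_ne h2 h3]
          exact hσ.1 p hp
    · intro τ _
      have : (univ : Finset (Fin n)).card = n := by simp
      conv_rhs => rw [← this]
      apply card_le_card_of_injOn (fun σ => σ y) (fun _ _ => mem_univ _)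
      intro σ hσ σ' hσ' h
      simp only [coe_filter, Set.mem_ofPred_eq] at hσ hσ'
      have h2 : σ = Equiv.swap x (σ y) * τ := by
        rw [← hσ.2, ← mul_assoc, Equiv.swap_mul_self, one_mul]
      have h3 : σ' = Equiv.swap x (σ' y) * τ := by
        rw [← hσ'.2, ← mul_assoc, Equiv.swap_mul_self, one_mul]
      have h' : σ y = σ' y := h
      rw [h2, h3, h']
  have h2 : (avoid G).card = ((avoid G).filter fun σ => (σ⁻¹ x, σ y) ∈ G).card +
      ((avoid G).filter fun σ => (σ⁻¹ x, σ y) ∉ G).card :=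
    (card_filter_add_card_filter_not _).symm
  have h3 : ((avoid G).filter fun σ => (σ⁻¹ x, σ y) ∈ G).card ≤
      (univ.filter fun σ : Equiv.Perm (Fin n) => (σ⁻¹ x, σ y) ∈ G).card :=
    card_le_card (filter_subset_filter _ (subset_univ _))
  omega

/-- Adding a pair to the forbidden set: upper bound. -/
theorem q_insert_le (hn : 2 ≤ n) (he : (y, x) ∉ G) :
    q (insert (y, x) G) ≤ (1 - 1 / (n : ℝ)) * q G + G.card / ((n : ℝ) * (n * (n - 1))) := by
  have hn' : (1 : ℝ) < n := by exact_mod_cast hn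
  have h1 := avoid_insert_card (G := G) (y := y) (x := x)
  have h2 := switch_le he
  have h3 := bad_card hn he
  have hf : (0 : ℝ) < n.factorial := by positivity
  have h1' : ((avoid (insert (y, x) G)).card : ℝ) +
      (((avoid G).filter fun σ => σ y = x).card : ℝ) = ((avoid G).card : ℝ) := by exact_mod_cast h1
  have h2' : ((avoid G).card : ℝ) ≤ n * (((avoid G).filter fun σ => σ y = x).card : ℝ) +
      ((univ.filter fun σ : Equiv.Perm (Fin n) => (σ⁻¹ x, σ y) ∈ G).card : ℝ) := by exact_mod_cast h2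
  have h4 : ((avoid (insert (y, x) G)).card : ℝ) * n ≤ ((n : ℝ) - 1) * ((avoid G).card : ℝ) +
      G.card * ((n.factorial : ℝ) / (n * (n - 1))) := by nlinarith
  unfold q
  rw [div_le_iff₀ hf]
  have h5 : ((1 - 1 / (n : ℝ)) * (((avoid G).card : ℝ) / n.factorial) +
      G.card / ((n : ℝ) * (n * (n - 1)))) * n.factorial =
      (((n : ℝ) - 1) * ((avoid G).card : ℝ) + G.card * ((n.factorial : ℝ) / (n * (n - 1)))) / n := by
    have hn1 : (n : ℝ) - 1 ≠ 0 := by linarith
    field_simp
  rw [h5, le_div_iff₀ (by linarith)]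
  exact h4

theorem switch_ge (he : ∀ p ∈ G, p.1 ≠ y ∧ p.2 ≠ x) :
    n * ((avoid G).filter fun σ => σ y = x).card ≤ (avoid G).card := by
  have hcard : ((univ : Finset (Fin n)) ×ˢ ((avoid G).filter fun σ => σ y = x)).card =
      n * ((avoid G).filter fun σ => σ y = x).card := by
    rw [card_product]; simp
  rw [← hcard]
  apply card_le_card_of_injOn (fun zt : Fin n × Equiv.Perm (Fin n) => Equiv.swap x zt.1 * zt.2)
  · rintro ⟨z, τ⟩ hz
    simp only [coe_product, coe_univ, coe_filter, Set.mem_prod, Set.mem_univ, true_and,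
      Set.mem_ofPred_eq] at hz
    obtain ⟨h1, h2⟩ := hz
    rw [mem_coe, mem_avoid]
    rw [mem_avoid] at h1
    intro p hp
    simp only [Equiv.Perm.mul_apply]
    by_cases h3 : τ p.1 = x
    · exact absurd (τ.injective (h3.trans h2.symm)) (he p hp).1
    · by_cases h4 : τ p.1 = z
      · rw [h4, Equiv.swap_apply_right]
        exact (he p hp).2.symm
      · rw [Equiv.swap_apply_of_ne_of_ne h3 h4]
        exact h1 p hp
  · rintro ⟨z, τ⟩ hz ⟨z', τ'⟩ hz' h
    simp only [coe_product, coe_univ, coe_filter, Set.mem_prod, Set.mem_univ, true_and,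
      Set.mem_ofPred_eq] at hz hz' h
    have h1 : z = z' := by
      have := congrArg (fun σ : Equiv.Perm (Fin n) => σ y) h
      simpa [Equiv.Perm.mul_apply, hz.2, hz'.2] using this
    subst h1
    have h2 : τ = τ' := mul_left_cancel h
    rw [h2]

/-- Adding a pair disjoint from the others: lower bound. -/
theorem le_q_insert (hn : 1 ≤ n) (he : ∀ p ∈ G, p.1 ≠ y ∧ p.2 ≠ x) :
    (1 - 1 / (n : ℝ)) * q G ≤ q (insert (y, x) G) := by
  have hn' : (0 : ℝ) < n := by exact_mod_cast hn
  have h1 := avoid_insert_card (G := G) (y := y) (x := x)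
  have h2 := switch_ge he
  have hf : (0 : ℝ) < n.factorial := by positivity
  have h1' : ((avoid (insert (y, x) G)).card : ℝ) +
      (((avoid G).filter fun σ => σ y = x).card : ℝ) = ((avoid G).card : ℝ) := by exact_mod_cast h1
  have h2' : n * (((avoid G).filter fun σ => σ y = x).card : ℝ) ≤ ((avoid G).card : ℝ) := by
    exact_mod_cast h2
  unfold q
  rw [le_div_iff₀ hf]
  have h5 : (1 - 1 / (n : ℝ)) * (((avoid G).card : ℝ) / n.factorial) * n.factorial =
      ((avoid G).card : ℝ) - ((avoid G).card : ℝ) / n := by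
    field_simp
  rw [h5]
  have h6 : (((avoid G).filter fun σ => σ y = x).card : ℝ) ≤ ((avoid G).card : ℝ) / n := by
    rw [le_div_iff₀ hn']; linarith
  linarith

end switching

/-- Adding a set of new pairs to the forbidden set. -/
theorem q_union_le (hn : 2 ≤ n) (G E : Finset (Fin n × Fin n)) (hd : Disjoint G E) {M : ℕ}
    (hM : (G ∪ E).card ≤ M) :
    q (G ∪ E) ≤ (1 - 1 / (n : ℝ)) ^ E.card * q G + E.card * (M / ((n : ℝ) * (n * (n - 1)))) := by
  classical
  induction E using Finset.induction_on with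
  | empty => simp
  | insert e E heE ih =>
    have hn' : (1 : ℝ) < n := by exact_mod_cast hn
    rw [disjoint_insert_right] at hd
    have hsub : G ∪ E ⊆ G ∪ insert e E := union_subset_union_right (subset_insert _ _)
    have ih' := ih hd.2 ((card_le_card hsub).trans hM)
    have hne : e ∉ G ∪ E := by
      rw [mem_union]; tauto
    have h1 : G ∪ insert e E = insert e (G ∪ E) := by
      rw [union_insert]
    have h2 := q_insert_le (G := G ∪ E) (y := e.1) (x := e.2) hn (by simpa using hne)
    rw [h1, card_insert_of_notMem heE]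
    have hpos : 0 < (n : ℝ) * (n * (n - 1)) := by
      have : 0 < (n : ℝ) - 1 := by linarith
      positivity
    have h3 : ((G ∪ E).card : ℝ) / ((n : ℝ) * (n * (n - 1))) ≤ M / ((n : ℝ) * (n * (n - 1))) := by
      have : ((G ∪ E).card : ℝ) ≤ M := by exact_mod_cast (card_le_card hsub).trans hM
      gcongr
    have h0 : 0 ≤ 1 - 1 / (n : ℝ) := by
      rw [sub_nonneg, div_le_one (by linarith)]; linarith
    have h01 : 1 - 1 / (n : ℝ) ≤ 1 := by
      have : 0 ≤ 1 / (n : ℝ) := by positivity
      linarith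
    have h4 : 0 ≤ (E.card : ℝ) * (M / ((n : ℝ) * (n * (n - 1)))) := by positivity
    calc q (insert e (G ∪ E)) = q (insert (e.1, e.2) (G ∪ E)) := rfl
      _ ≤ (1 - 1 / (n : ℝ)) * q (G ∪ E) + ((G ∪ E).card : ℝ) / ((n : ℝ) * (n * (n - 1))) := h2
      _ ≤ (1 - 1 / (n : ℝ)) * ((1 - 1 / (n : ℝ)) ^ E.card * q G +
            E.card * (M / ((n : ℝ) * (n * (n - 1))))) + M / ((n : ℝ) * (n * (n - 1))) := by gcongr
      _ ≤ (1 - 1 / (n : ℝ)) ^ (E.card + 1) * q G +
            ((E.card + 1 : ℕ) : ℝ) * (M / ((n : ℝ) * (n * (n - 1)))) := by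
          rw [pow_succ]
          push_cast
          have : (1 - 1 / (n : ℝ)) * ((E.card : ℝ) * (M / ((n : ℝ) * (n * (n - 1))))) ≤
              (E.card : ℝ) * (M / ((n : ℝ) * (n * (n - 1)))) :=
            mul_le_of_le_one_left h4 h01
          nlinarith

/-- The two stars at the label `o`. -/
theorem q_star_le (hn : 2 ≤ n) (o : Fin n) (Y X : Finset (Fin n)) (hY : o ∉ Y) (hX : o ∉ X)
    (G : Finset (Fin n × Fin n)) (h1 : ∀ y ∈ Y, (y, o) ∈ G) (h2 : ∀ x ∈ X, (o, x) ∈ G) :
    q G ≤ (1 - Y.card / (n : ℝ)) * (1 - X.card / (n : ℝ)) + 1 / n := by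
  classical
  have hn' : (1 : ℝ) < n := by exact_mod_cast hn
  set YY := (univ : Finset (Fin n)).erase o \ Y with hYY
  set XX := (univ : Finset (Fin n)).erase o \ X with hXX
  have hsub : avoid G ⊆ (univ.filter fun σ : Equiv.Perm (Fin n) => σ o = o) ∪
      (YY ×ˢ XX).biUnion fun p => univ.filter fun σ : Equiv.Perm (Fin n) => σ p.1 = o ∧ σ o = p.2 := by
    intro σ hσ
    rw [mem_avoid] at hσ
    rw [mem_union]
    by_cases h : σ o = o
    · left; simp [h]
    · right
      rw [mem_biUnion]
      refine ⟨(σ⁻¹ o, σ o), ?_, ?_⟩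
      · rw [mem_product, hYY, hXX, mem_sdiff, mem_sdiff, mem_erase, mem_erase]
        refine ⟨⟨⟨?_, mem_univ _⟩, ?_⟩, ⟨⟨h, mem_univ _⟩, ?_⟩⟩
        · intro h3
          apply h
          have h3' : σ⁻¹ o = o := h3
          calc σ o = σ (σ⁻¹ o) := by rw [h3']
            _ = o := by simp
        · intro h3
          exact hσ _ (h1 _ h3) (by simp)
        · intro h3
          exact hσ _ (h2 _ h3) rfl
      · simp
  have hc1 := card_le_card hsub
  have hc2 := card_union_le (univ.filter fun σ : Equiv.Perm (Fin n) => σ o = o)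
    ((YY ×ˢ XX).biUnion fun p => univ.filter fun σ : Equiv.Perm (Fin n) => σ p.1 = o ∧ σ o = p.2)
  have hc3 := card_biUnion_le (s := YY ×ˢ XX)
    (t := fun p => univ.filter fun σ : Equiv.Perm (Fin n) => σ p.1 = o ∧ σ o = p.2)
  have hterm : ∀ p ∈ YY ×ˢ XX, ((univ.filter fun σ : Equiv.Perm (Fin n) => σ p.1 = o ∧ σ o = p.2).card : ℝ)
      = (n.factorial : ℝ) / (n * (n - 1)) := by
    intro p hp
    rw [mem_product, hYY, hXX, mem_sdiff, mem_sdiff, mem_erase, mem_erase] at hp
    exact card_two_real hn hp.1.1.1 hp.2.1.1.symm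
  have hYc : (YY.card : ℝ) = n - 1 - Y.card := by
    have hs : Y ⊆ (univ : Finset (Fin n)).erase o := by
      intro z hz
      rw [mem_erase]
      exact ⟨fun h => hY (h ▸ hz), mem_univ _⟩
    have h3 := card_sdiff_add_card_eq_card hs
    rw [card_erase_of_mem (mem_univ _), card_univ, Fintype.card_fin] at h3
    have h4 : (YY.card : ℝ) + Y.card = ((n - 1 : ℕ) : ℝ) := by exact_mod_cast h3
    rw [Nat.cast_sub (by omega)] at h4
    push_cast at h4
    linarith
  have hXc : (XX.card : ℝ) = n - 1 - X.card := by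
    have hs : X ⊆ (univ : Finset (Fin n)).erase o := by
      intro z hz
      rw [mem_erase]
      exact ⟨fun h => hX (h ▸ hz), mem_univ _⟩
    have h3 := card_sdiff_add_card_eq_card hs
    rw [card_erase_of_mem (mem_univ _), card_univ, Fintype.card_fin] at h3
    have h4 : (XX.card : ℝ) + X.card = ((n - 1 : ℕ) : ℝ) := by exact_mod_cast h3
    rw [Nat.cast_sub (by omega)] at h4
    push_cast at h4
    linarith
  have hf : (0 : ℝ) < n.factorial := by positivity
  have hmain : ((avoid G).card : ℝ) ≤ (n.factorial : ℝ) / n +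
      ((n : ℝ) - 1 - Y.card) * ((n : ℝ) - 1 - X.card) * ((n.factorial : ℝ) / (n * (n - 1))) := by
    calc ((avoid G).card : ℝ) ≤ ((univ.filter fun σ : Equiv.Perm (Fin n) => σ o = o).card : ℝ) +
          ((∑ p ∈ YY ×ˢ XX, (univ.filter fun σ : Equiv.Perm (Fin n) => σ p.1 = o ∧ σ o = p.2).card : ℕ) : ℝ) := by
            exact_mod_cast hc1.trans (hc2.trans (Nat.add_le_add_left hc3 _))
      _ = _ := by
            rw [card_one_real (by omega), Nat.cast_sum, sum_congr rfl hterm, sum_const, card_product,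
              nsmul_eq_mul, Nat.cast_mul, hYc, hXc]
  unfold q
  rw [div_le_iff₀ hf]
  refine hmain.trans ?_
  have hYn : (Y.card : ℝ) ≤ n - 1 := by
    have : (0 : ℝ) ≤ YY.card := by positivity
    linarith
  have hXn : (X.card : ℝ) ≤ n - 1 := by
    have : (0 : ℝ) ≤ XX.card := by positivity
    linarith
  have hY0 : (0 : ℝ) ≤ Y.card := by positivity
  have hX0 : (0 : ℝ) ≤ X.card := by positivity
  have h5 : ((n : ℝ) - 1 - Y.card) / (n - 1) ≤ 1 - Y.card / n := by
    have hn1 : 0 < (n : ℝ) - 1 := by linarith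
    rw [div_le_iff₀ hn1]
    have : (Y.card : ℝ) / n * (n - 1) ≤ Y.card := by
      rw [div_mul_eq_mul_div, div_le_iff₀ (by linarith)]
      nlinarith
    nlinarith
  have h6 : ((n : ℝ) - 1 - X.card) / n ≤ 1 - X.card / n := by
    rw [div_le_iff₀ (by linarith), sub_mul, div_mul_cancel₀ _ (by linarith)]
    linarith
  have h7 : ((n : ℝ) - 1 - Y.card) * ((n : ℝ) - 1 - X.card) * ((n.factorial : ℝ) / (n * (n - 1))) =
      (((n : ℝ) - 1 - Y.card) / (n - 1)) * (((n : ℝ) - 1 - X.card) / n) * n.factorial := by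
    have hn1 : (n : ℝ) - 1 ≠ 0 := by linarith
    field_simp
  rw [h7]
  have h8 : (((n : ℝ) - 1 - Y.card) / (n - 1)) * (((n : ℝ) - 1 - X.card) / n) ≤
      (1 - Y.card / (n : ℝ)) * (1 - X.card / (n : ℝ)) := by
    apply mul_le_mul h5 h6
    · apply div_nonneg <;> linarith
    · rw [sub_nonneg, div_le_one (by linarith)]; linarith
  calc (n.factorial : ℝ) / n + (((n : ℝ) - 1 - Y.card) / (n - 1)) * (((n : ℝ) - 1 - X.card) / n) * n.factorial
      ≤ (n.factorial : ℝ) / n + (1 - Y.card / (n : ℝ)) * (1 - X.card / (n : ℝ)) * n.factorial := by gcongr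
    _ = _ := by ring

end Pool.Agent.W972.AW
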