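import Pool.Agent.W972.AW.Relabel

namespace Pool.Agent.W972.AW

open Finset

/-- A word tells what a player does in each half-block: stay at her home (`none`), tour the first half
(`some false`) or the second half (`some true`) of her non-home labels. -/
abbrev Word := ℕ → Option Bool

/-- The (untranslated) label used at time `t` of the block: the home is `0`; the first half consists of
`1, …, N`, the second half of `N + 1, …, 2 N`.  The starting point of the tour of a half in half-block
number `k` is shifted by `k * r`. -/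
def base (N : ℕ) (w : Word) (r t : ℕ) : ℕ :=
  match w (t / N) with
  | none => 0
  | some c => 1 + (if c then N else 0) + (t + t / N * r) % N

def tt (w v : Word) (k : ℕ) : Bool := (w k).isSome && (v k).isSome

/-- number of half-blocks before `k` with property `P` -/
def cnt (P : ℕ → Bool) : ℕ → ℕ
  | 0 => 0
  | k + 1 => cnt P k + (if P k then 1 else 0)

/-- has class `c` been toured by `v` while `w` stayed, in a half-block before `k`? -/
def cov (w v : Word) (c : Bool) : ℕ → Bool
  | 0 => false
  | k + 1 => cov w v c k || ((w k).isNone && (v k == some c))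

/-- is a new class toured by `v` in half-block `k` while `w` stays? -/
def newb (w v : Word) (k : ℕ) : Bool :=
  match w k, v k with
  | none, some c => !(cov w v c k)
  | _, _ => false

def na (w v : Word) (k : ℕ) : ℕ := (cov w v false k).toNat + (cov w v true k).toNat

theorem cov_spec {w v : Word} {c : Bool} {k : ℕ} (h : cov w v c k = true) :
    ∃ j < k, w j = none ∧ v j = some c := by
  induction k with
  | zero => simp [cov] at h
  | succ k ih =>
    rw [cov, Bool.or_eq_true] at h
    rcases h with h | h
    · obtain ⟨j, hj, h1⟩ := ih h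
      exact ⟨j, by omega, h1⟩
    · rw [Bool.and_eq_true] at h
      refine ⟨k, by omega, ?_, ?_⟩
      · simpa using h.1
      · simpa using h.2

theorem na_le_two (w v : Word) (k : ℕ) : na w v k ≤ 2 := by
  unfold na
  have h1 : (cov w v false k).toNat ≤ 1 := Bool.toNat_le _
  have h2 : (cov w v true k).toNat ≤ 1 := Bool.toNat_le _
  omega

variable {N : ℕ}

def times (P : ℕ → Bool) (N T : ℕ) : Finset ℕ := (range T).filter fun t => P (t / N) = true

theorem card_times_add (P : ℕ → Bool) (hN : 0 < N) (k : ℕ) {i : ℕ} (hi : i ≤ N) :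
    (times P N (k * N + i)).card = (times P N (k * N)).card + (if P k then i else 0) := by
  induction i with
  | zero => simp
  | succ i ih =>
    have h := ih (by omega)
    have hdiv : (k * N + i) / N = k := by
      rw [mul_comm, Nat.mul_add_div hN, Nat.div_eq_of_lt (by omega), add_zero]
    unfold times at h ⊢
    rw [← add_assoc, range_add_one, filter_insert]
    rw [hdiv]
    split_ifs at h ⊢ with hP
    · rw [card_insert_of_notMem (by simp), h]; omega
    · exact h

theorem card_times (P : ℕ → Bool) (hN : 0 < N) (k : ℕ) {i : ℕ} (hi : i ≤ N) :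
    (times P N (k * N + i)).card = N * cnt P k + (if P k then i else 0) := by
  rw [card_times_add P hN k hi]
  congr 1
  clear hi i
  induction k with
  | zero => simp [times, cnt]
  | succ k ih =>
    have h : (k + 1) * N = k * N + N := by ring
    rw [h, card_times_add P hN k le_rfl, ih, cnt]
    split_ifs <;> ring

variable {n : ℕ}

theorem base_lt (hN : 0 < N) (hn : 2 * N + 1 ≤ n) (w : Word) (r t : ℕ) : base N w r t < n := by
  unfold base
  have := Nat.mod_lt (t + t / N * r) hN
  split
  · omega
  · split_ifs <;> omega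

theorem ofNat_inj [NeZero n] {a b : ℕ} (ha : a < n) (hb : b < n) (h : Fin.ofNat n a = Fin.ofNat n b) :
    a = b := by
  have := congrArg Fin.val h
  simp only [Fin.ofNat] at this
  rwa [Nat.mod_eq_of_lt ha, Nat.mod_eq_of_lt hb] at this

theorem ofNat_val [NeZero n] {a : ℕ} (ha : a < n) : (Fin.ofNat n a).val = a := by
  simp only [Fin.ofNat]
  exact Nat.mod_eq_of_lt ha

/-- the label sequence -/
def lab (n : ℕ) [NeZero n] (N : ℕ) (w : Word) (r t : ℕ) : Fin n := Fin.ofNat n (base N w r t)

/-- number of different labels met by a tour while the other player stays -/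
theorem star_card [NeZero n] (hN : 0 < N) (hn : 2 * N + 1 ≤ n) (w v : Word) (r k : ℕ) {i : ℕ}
    (hi : i ≤ N) :
    na w v k * N + (if newb w v k then i else 0) ≤
      (image (lab n N v r) (times (fun j => (w j).isNone && (v j).isSome) N (k * N + i))).card := by
  classical
  set S := image (lab n N v r) (times (fun j => (w j).isNone && (v j).isSome) N (k * N + i)) with hS
  -- one class
  have hclass : ∀ (c : Bool) (j m : ℕ), m ≤ N → j * N + m ≤ k * N + i → w j = none → v j = some c →
      m ≤ (S.filter fun x => (decide (N < x.val)) = c).card := by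
    intro c j m hm hjm hw hv
    have hc : (range m).card = m := card_range m
    conv_lhs => rw [← hc]
    have hval : ∀ e < m, base N v r (j * N + e) = 1 + (if c then N else 0) + (j * N + e + j * r) % N := by
      intro e he
      have hdiv : (j * N + e) / N = j := by
        rw [mul_comm, Nat.mul_add_div hN, Nat.div_eq_of_lt (by omega), add_zero]
      unfold base
      rw [hdiv, hv]
    apply card_le_card_of_injOn (fun e => lab n N v r (j * N + e))
    · intro e he
      rw [coe_range, Set.mem_Iio] at he
      rw [mem_coe, mem_filter]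
      constructor
      · rw [hS, mem_image]
        refine ⟨j * N + e, ?_, rfl⟩
        unfold times
        rw [mem_filter, mem_range]
        have hdiv : (j * N + e) / N = j := by
          rw [mul_comm, Nat.mul_add_div hN, Nat.div_eq_of_lt (by omega), add_zero]
        refine ⟨by omega, ?_⟩
        simp only [hdiv, hw, hv]
        rfl
      · unfold lab
        rw [ofNat_val (base_lt hN hn _ _ _), hval e he]
        have := Nat.mod_lt (j * N + e + j * r) hN
        cases c
        · simp; omega
        · simp; omega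
    · intro e he e' he' h
      rw [coe_range, Set.mem_Iio] at he he'
      simp only at h
      unfold lab at h
      have h1 := ofNat_inj (base_lt hN hn _ _ _) (base_lt hN hn _ _ _) h
      rw [hval e he, hval e' he'] at h1
      have h2 : (j * N + e + j * r) % N = (j * N + e' + j * r) % N := by omega
      have h3 : j * N + e + j * r ≡ j * N + e' + j * r [MOD N] := h2
      have h4 : j * N + e ≡ j * N + e' [MOD N] := Nat.ModEq.add_right_cancel' _ h3
      have h5 : e ≡ e' [MOD N] := Nat.ModEq.add_left_cancel' _ h4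
      exact Nat.ModEq.eq_of_lt_of_lt h5 (by omega) (by omega)
  have hsplit : (S.filter fun x => (decide (N < x.val)) = false).card +
      (S.filter fun x => (decide (N < x.val)) = true).card = S.card := by
    have := card_filter_add_card_filter_not (s := S) (fun x : Fin n => (decide (N < x.val)) = false)
    rw [← this]
    congr 2
    ext x
    simp
  have hcov : ∀ c : Bool, cov w v c k = true → N ≤ (S.filter fun x => (decide (N < x.val)) = c).card := by
    intro c hc
    obtain ⟨j, hj, h1, h2⟩ := cov_spec hc
    refine hclass c j N le_rfl ?_ h1 h2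
    have : (j + 1) * N ≤ k * N := Nat.mul_le_mul_right N hj
    have h3 : (j + 1) * N = j * N + N := by ring
    omega
  have hF := hcov false
  have hT := hcov true
  unfold na newb
  rw [← hsplit]
  cases hw : w k with
  | some c =>
    simp only [Bool.false_eq_true, if_false, add_zero]
    cases h1 : cov w v false k <;> cases h2 : cov w v true k <;> simp only [h1, h2] at hF hT ⊢ <;>
      simp only [Bool.toNat_true, Bool.toNat_false, forall_const] at * <;> omega
  | none =>
    cases hv : v k with
    | none =>
      simp only [Bool.false_eq_true, if_false, add_zero]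
      cases h1 : cov w v false k <;> cases h2 : cov w v true k <;> simp only [h1, h2] at hF hT ⊢ <;>
        simp only [Bool.toNat_true, Bool.toNat_false, forall_const] at * <;> omega
    | some c =>
      have hcur := hclass c k i hi le_rfl hw hv
      cases c <;> cases h1 : cov w v false k <;> cases h2 : cov w v true k <;>
        simp only [h1, h2] at hF hT ⊢ <;>
        simp only [Bool.toNat_true, Bool.toNat_false, forall_const, Bool.not_true, Bool.not_false,
          if_true, Bool.false_eq_true, if_false] at * <;> omega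

/-- the pairs of labels in the common tours are pairwise different -/
theorem tt_inj [NeZero n] (hN : 0 < N) (hn : 2 * N + 1 ≤ n) (w v : Word) {r r' M : ℕ} (hM : 6 * M ≤ N)
    (hr : r < M) (hr' : r' < M) (hne : r ≠ r') {T : ℕ} (hT : T ≤ 6 * N) :
    Set.InjOn (fun t => (lab n N v r' t, lab n N w r t)) (times (tt w v) N T : Finset ℕ) := by
  have key : ∀ (u : Word) (s t1 t2 : ℕ), (u (t1 / N)).isSome → (u (t2 / N)).isSome →
      lab n N u s t1 = lab n N u s t2 →
      (N : ℤ) ∣ ((t2 : ℤ) + (t2 / N : ℕ) * s) - ((t1 : ℤ) + (t1 / N : ℕ) * s) := by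
    intro u s t1 t2 h1 h2 h
    unfold lab at h
    have h3 := ofNat_inj (base_lt hN hn _ _ _) (base_lt hN hn _ _ _) h
    obtain ⟨c1, hc1⟩ := Option.isSome_iff_exists.1 h1
    obtain ⟨c2, hc2⟩ := Option.isSome_iff_exists.1 h2
    unfold base at h3
    rw [hc1, hc2] at h3
    simp only at h3
    have l1 := Nat.mod_lt (t1 + t1 / N * s) hN
    have l2 := Nat.mod_lt (t2 + t2 / N * s) hN
    have h4 : (t1 + t1 / N * s) % N = (t2 + t2 / N * s) % N := by
      split_ifs at h3 <;> omega
    have h5 : t1 + t1 / N * s ≡ t2 + t2 / N * s [MOD N] := h4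
    have h6 := (Nat.modEq_iff_dvd.1 h5)
    push_cast at h6
    push_cast
    exact h6
  intro t1 ht1 t2 ht2 h
  rw [mem_coe] at ht1 ht2
  unfold times at ht1 ht2
  rw [mem_filter, mem_range] at ht1 ht2
  unfold tt at ht1 ht2
  rw [Bool.and_eq_true] at ht1 ht2
  simp only [Prod.mk.injEq] at h
  have d1 := key v r' t1 t2 ht1.2.2 ht2.2.2 h.1
  have d2 := key w r t1 t2 ht1.2.1 ht2.2.1 h.2
  have b1 : t1 / N ≤ 5 := by
    have : t1 / N < 6 := Nat.div_lt_of_lt_mul (by rw [mul_comm]; omega)
    omega
  have b2 : t2 / N ≤ 5 := by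
    have : t2 / N < 6 := Nat.div_lt_of_lt_mul (by rw [mul_comm]; omega)
    omega
  have e1 := Nat.div_add_mod t1 N
  have e2 := Nat.div_add_mod t2 N
  have m1 := Nat.mod_lt t1 hN
  have m2 := Nat.mod_lt t2 hN
  generalize hk1 : t1 / N = k1 at *
  generalize hk2 : t2 / N = k2 at *
  have d3 := dvd_sub d1 d2
  have d4 : (N : ℤ) ∣ ((k2 : ℤ) - k1) * ((r' : ℤ) - r) := by
    have : ((t2 : ℤ) + (k2 : ℕ) * r') - ((t1 : ℤ) + (k1 : ℕ) * r') -
      (((t2 : ℤ) + (k2 : ℕ) * r) - ((t1 : ℤ) + (k1 : ℕ) * r)) = ((k2 : ℤ) - k1) * ((r' : ℤ) - r) := by ring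
    rwa [this] at d3
  have habs : |((k2 : ℤ) - k1) * ((r' : ℤ) - r)| < N := by
    rw [abs_mul]
    have a1 : |(k2 : ℤ) - k1| ≤ 5 := by
      rw [abs_le]; constructor <;> omega
    have a2 : |(r' : ℤ) - r| ≤ M - 1 := by
      rw [abs_le]; constructor <;> omega
    have a3 : 0 ≤ |(r' : ℤ) - r| := abs_nonneg _
    have a4 : (6 : ℤ) * M ≤ N := by exact_mod_cast hM
    calc |(k2 : ℤ) - k1| * |(r' : ℤ) - r| ≤ 5 * ((M : ℤ) - 1) := by
          apply mul_le_mul a1 a2 a3 (by norm_num)
      _ < N := by omega
  have hz := Int.eq_zero_of_abs_lt_dvd d4 habs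
  rcases mul_eq_zero.1 hz with h0 | h0
  · have hk : k1 = k2 := by omega
    have d5 : (N : ℤ) ∣ (t2 : ℤ) - t1 := by
      rw [hk] at d2
      have : ((t2 : ℤ) + (k2 : ℕ) * r) - ((t1 : ℤ) + (k2 : ℕ) * r) = t2 - t1 := by ring
      rwa [this] at d2
    have habs2 : |(t2 : ℤ) - t1| < N := by
      rw [abs_lt]
      rw [hk] at e1
      constructor <;> omega
    have := Int.eq_zero_of_abs_lt_dvd d5 habs2
    omega
  · exfalso
    apply hne
    omega

/-- The probability that a uniform permutation avoids the pairs of the first `k * N + i` steps. -/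
theorem q_pairs_le [NeZero n] (hN : 0 < N) (hn : 2 * N + 1 ≤ n) (w v : Word) {r r' M : ℕ}
    (hM : 6 * M ≤ N) (hr : r < M) (hr' : r' < M) (hne : r ≠ r') (k : ℕ) {i : ℕ} (hi : i ≤ N)
    (hT : k * N + i ≤ 6 * N) :
    q (pairs (lab n N w r) (lab n N v r') (k * N + i)) ≤
      (1 - 1 / (n : ℝ)) ^ (N * cnt (tt w v) k + (if tt w v k then i else 0)) *
      ((1 - ((na w v k * N + (if newb w v k then i else 0) : ℕ) : ℝ) / n) *
      (1 - ((na v w k * N + (if newb v w k then i else 0) : ℕ) : ℝ) / n)) + 10 / (n - 1) := by
  classical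
  have hn2 : 2 ≤ n := by omega
  have hnr : (2 : ℝ) ≤ n := by exact_mod_cast hn2
  have hn3 : (3 : ℝ) ≤ n := by exact_mod_cast (show 3 ≤ n by omega)
  set T := k * N + i with hTdef
  set U := lab n N w r with hU
  set V := lab n N v r' with hV
  set o : Fin n := Fin.ofNat n 0 with ho
  set Y := image V (times (fun j => (w j).isNone && (v j).isSome) N T) with hY
  set X := image U (times (fun j => (v j).isNone && (w j).isSome) N T) with hX
  set E := image (fun t => (V t, U t)) (times (tt w v) N T) with hE
  set G₀ := image (fun y => (y, o)) Y ∪ image (fun x => (o, x)) X with hG₀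
  have hzero : ∀ (u : Word) (s t : ℕ), u (t / N) = none → lab n N u s t = o := by
    intro u s t h
    unfold lab base
    rw [h]
  have hnz : ∀ (u : Word) (s t : ℕ), (u (t / N)).isSome → lab n N u s t ≠ o := by
    intro u s t h h2
    unfold lab at h2
    have h3 := ofNat_inj (base_lt hN hn _ _ _) (by omega) h2
    obtain ⟨c, hc⟩ := Option.isSome_iff_exists.1 h
    unfold base at h3
    rw [hc] at h3
    simp only at h3
    omega
  have hoY : o ∉ Y := by
    rw [hY, mem_image]
    rintro ⟨t, ht, h2⟩
    unfold times at ht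
    rw [mem_filter, Bool.and_eq_true] at ht
    exact hnz v r' t ht.2.2 h2
  have hoX : o ∉ X := by
    rw [hX, mem_image]
    rintro ⟨t, ht, h2⟩
    unfold times at ht
    rw [mem_filter, Bool.and_eq_true] at ht
    exact hnz w r t ht.2.2 h2
  have hdisj : Disjoint G₀ E := by
    rw [disjoint_left]
    intro p hp hpE
    rw [hE, mem_image] at hpE
    obtain ⟨t, ht, rfl⟩ := hpE
    unfold times tt at ht
    rw [mem_filter, Bool.and_eq_true] at ht
    have h1 := hnz v r' t ht.2.2
    have h2 := hnz w r t ht.2.1
    rw [hG₀, mem_union, mem_image, mem_image] at hp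
    rcases hp with ⟨y, _, hy⟩ | ⟨x, _, hx⟩
    · rw [Prod.mk.injEq] at hy
      exact h2 hy.2.symm
    · rw [Prod.mk.injEq] at hx
      exact h1 hx.1.symm
  have hsub : G₀ ∪ E ⊆ pairs U V T := by
    intro p hp
    unfold pairs
    rw [mem_image]
    rw [mem_union, hG₀, mem_union, mem_image, mem_image] at hp
    rcases hp with (⟨y, hy, rfl⟩ | ⟨x, hx, rfl⟩) | hp
    · rw [hY, mem_image] at hy
      obtain ⟨t, ht, rfl⟩ := hy
      unfold times at ht
      rw [mem_filter, Bool.and_eq_true] at ht
      refine ⟨t, ht.1, ?_⟩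
      rw [Prod.mk.injEq]
      exact ⟨rfl, hzero w r t (by simpa using ht.2.1)⟩
    · rw [hX, mem_image] at hx
      obtain ⟨t, ht, rfl⟩ := hx
      unfold times at ht
      rw [mem_filter, Bool.and_eq_true] at ht
      refine ⟨t, ht.1, ?_⟩
      rw [Prod.mk.injEq]
      exact ⟨hzero v r' t (by simpa using ht.2.1), rfl⟩
    · rw [hE, mem_image] at hp
      obtain ⟨t, ht, rfl⟩ := hp
      unfold times at ht
      rw [mem_filter] at ht
      exact ⟨t, ht.1, rfl⟩
  have hcardp : (pairs U V T).card ≤ T := by
    unfold pairs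
    exact card_image_le.trans (by rw [card_range])
  have hT3 : T ≤ 3 * n := by omega
  have hcard : (G₀ ∪ E).card ≤ 3 * n := ((card_le_card hsub).trans hcardp).trans hT3
  have hEcard : E.card = N * cnt (tt w v) k + (if tt w v k then i else 0) := by
    rw [hE, card_image_of_injOn (tt_inj hN hn w v hM hr hr' hne hT), card_times _ hN k hi]
  have hEle : E.card ≤ 3 * n := (card_le_card (subset_union_right)).trans hcard
  have hYc : na w v k * N + (if newb w v k then i else 0) ≤ Y.card := star_card hN hn w v r' k hi
  have hXc : na v w k * N + (if newb v w k then i else 0) ≤ X.card := star_card hN hn v w r k hi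
  have h1 := q_union_le hn2 G₀ E hdisj hcard
  have h2 := q_star_le hn2 o Y X hoY hoX G₀
    (fun y hy => by rw [hG₀, mem_union]; left; exact mem_image_of_mem _ hy)
    (fun x hx => by rw [hG₀, mem_union]; right; exact mem_image_of_mem _ hx)
  have h3 := q_anti hsub
  have hp0 : 0 ≤ 1 - 1 / (n : ℝ) := by
    rw [sub_nonneg, div_le_one (by linarith)]; linarith
  have hp1 : 1 - 1 / (n : ℝ) ≤ 1 := by
    have : 0 ≤ 1 / (n : ℝ) := by positivity
    linarith
  have hYn : (Y.card : ℝ) / n ≤ 1 := by
    rw [div_le_one (by linarith)]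
    have : Y.card ≤ n := by simpa using card_le_univ Y
    exact_mod_cast this
  have hXn : (X.card : ℝ) / n ≤ 1 := by
    rw [div_le_one (by linarith)]
    have : X.card ≤ n := by simpa using card_le_univ X
    exact_mod_cast this
  have hYr : ((na w v k * N + (if newb w v k then i else 0) : ℕ) : ℝ) / n ≤ Y.card / n := by
    gcongr
  have hXr : ((na v w k * N + (if newb v w k then i else 0) : ℕ) : ℝ) / n ≤ X.card / n := by
    gcongr
  set ρ := (1 - 1 / (n : ℝ)) ^ (N * cnt (tt w v) k + (if tt w v k then i else 0)) with hρ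
  rw [hEcard, ← hρ] at h1
  have hρ0 : 0 ≤ ρ := pow_nonneg hp0 _
  have hρ1 : ρ ≤ 1 := pow_le_one₀ hp0 hp1
  have h4 : ρ * q G₀ ≤ ρ * ((1 - ((na w v k * N + (if newb w v k then i else 0) : ℕ) : ℝ) / n) *
      (1 - ((na v w k * N + (if newb v w k then i else 0) : ℕ) : ℝ) / n)) + 1 / n := by
    have h5 : (1 - (Y.card : ℝ) / n) * (1 - (X.card : ℝ) / n) ≤
        (1 - ((na w v k * N + (if newb w v k then i else 0) : ℕ) : ℝ) / n) *
        (1 - ((na v w k * N + (if newb v w k then i else 0) : ℕ) : ℝ) / n) := by
      apply mul_le_mul <;> linarith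
    have h6 : ρ * (1 / (n : ℝ)) ≤ 1 / n := mul_le_of_le_one_left (by positivity) hρ1
    calc ρ * q G₀ ≤ ρ * ((1 - (Y.card : ℝ) / n) * (1 - (X.card : ℝ) / n) + 1 / n) :=
          mul_le_mul_of_nonneg_left h2 hρ0
      _ ≤ ρ * ((1 - ((na w v k * N + (if newb w v k then i else 0) : ℕ) : ℝ) / n) *
        (1 - ((na v w k * N + (if newb v w k then i else 0) : ℕ) : ℝ) / n) + 1 / n) := by gcongr
      _ ≤ _ := by rw [mul_add]; linarith
  have h7 : ((N * cnt (tt w v) k + (if tt w v k then i else 0) : ℕ) : ℝ) *
      (((3 * n : ℕ) : ℝ) / ((n : ℝ) * (n * (n - 1)))) ≤ 9 / (n - 1) := by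
    have h8 : ((N * cnt (tt w v) k + (if tt w v k then i else 0) : ℕ) : ℝ) ≤ 3 * n := by
      rw [← hEcard]; exact_mod_cast hEle
    have hpos : 0 < (n : ℝ) - 1 := by linarith
    have h9 : ((3 * n : ℕ) : ℝ) / ((n : ℝ) * (n * (n - 1))) = 3 / (n * (n - 1)) := by
      push_cast
      field_simp
    rw [h9]
    calc ((N * cnt (tt w v) k + (if tt w v k then i else 0) : ℕ) : ℝ) * (3 / (n * (n - 1)))
        ≤ (3 * n) * (3 / (n * (n - 1))) := by gcongr
      _ = 9 / (n - 1) := by field_simp; norm_num
  have h10 : 1 / (n : ℝ) ≤ 1 / (n - 1) := by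
    apply div_le_div_of_nonneg_left (by norm_num) (by linarith) (by linarith)
  have h11 : (10 : ℝ) / (n - 1) = 9 / (n - 1) + 1 / (n - 1) := by ring
  rw [h11]
  linarith

end Pool.Agent.W972.AW
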